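import Pool.Agent.PB.P.Loc

/-!
PROJECT PB, P/Expl: exploration identities and ghost formulas (Section 1.2).

* `Pr_edge`, `Pr_inter_dep`, `expl`, `expl_edge`: independence for the explored cluster;
* `Pr_Cl_del1` (helper75's N3), `Pr_Cl_del1_inter`: `P(C(O,y)=K) = (1-p) P(C(O\e,y)=K)`;
* `lintegral_split`: decomposition over the finite values of a random vertex set;
* `ex h S = P(S ∩ G_h = ∅)`, `Pr_ghost_disj`, `lintegral_ghost`: ghosts given everything else.
-/

set_option autoImplicit false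
open MeasureTheory Filter Topology
open scoped ENNReal BigOperators

namespace Pool.Agent.PB

variable {d : ℕ}

/-! ### Edges -/

theorem Pr_edge (p : ℝ) {e : Sym2 (V d)} (he : e ∈ (lat d).edgeSet) :
    Pr d {ω | e ∈ opn p ω} = ENNReal.ofReal (min p 1) := by
  have h1 : {ω : Om d | e ∈ opn p ω} = {ω | ((ω (Sum.inl e) : unitInterval) : ℝ) ≤ p} := by
    ext ω; simp [opn, he]
  rw [h1]
  exact Pr_label_le (Sum.inl e) p

theorem Pr_edge_not (p : ℝ) {e : Sym2 (V d)} (he : e ∈ (lat d).edgeSet) :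
    Pr d {ω | e ∉ opn p ω} = 1 - ENNReal.ofReal (min p 1) := by
  rw [← Pr_edge p he]
  exact prob_compl_eq_one_sub (opn_MES p e)

theorem dep_mem_opn (p : ℝ) (e : Sym2 (V d)) :
    DependsOn (fun ω : Om d => e ∈ opn p ω) {Sum.inl e} := by
  intro ω ω' h
  have := h (Sum.inl e) rfl
  simp only [opn, Set.mem_ofPred_eq, this]

theorem Pr_inter_dep {S T : Set (Ix d)} (hST : Disjoint S T) {A B : Set (Om d)}
    (hA : MeasurableSet A) (hB : MeasurableSet B) (hAS : DependsOn (fun ω => ω ∈ A) S)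
    (hBT : DependsOn (fun ω => ω ∈ B) T) : Pr d (A ∩ B) = Pr d A * Pr d B :=
  Pr_inter_indep hST hA hB hAS hBT

theorem lintegral_mul_dep {S T : Set (Ix d)} (hST : Disjoint S T) {f g : Om d → ℝ≥0∞}
    (hf : Measurable f) (hg : Measurable g) (hfS : DependsOn f S) (hgT : DependsOn g T) :
    ∫⁻ ω, f ω * g ω ∂Pr d = (∫⁻ ω, f ω ∂Pr d) * ∫⁻ ω, g ω ∂Pr d :=
  lintegral_mul_indep hST hf hg hfS hgT

theorem dep_inter {ι α : Type*} {S : Set ι} {A B : Set (ι → α)}
    (hA : DependsOn (fun ω => ω ∈ A) S) (hB : DependsOn (fun ω => ω ∈ B) S) :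
    DependsOn (fun ω => ω ∈ A ∩ B) S := fun ω ω' h => by
  have h1 := hA h
  have h2 := hB h
  simp only [eq_iff_iff] at h1 h2 ⊢
  simp only [Set.mem_inter_iff, h1, h2]

theorem dep_compl {ι α : Type*} {S : Set ι} {A : Set (ι → α)}
    (hA : DependsOn (fun ω => ω ∈ A) S) : DependsOn (fun ω => ω ∈ Aᶜ) S := fun ω ω' h => by
  have h1 := hA h
  simp only [eq_iff_iff] at h1 ⊢
  simp only [Set.mem_compl_iff, h1]

/-- exploration, events -/
theorem expl {K : Set (V d)} {A B : Set (Om d)} (hA : MeasurableSet A) (hB : MeasurableSet B)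
    (hAS : DependsOn (fun ω => ω ∈ A) (tI K)) (hBT : DependsOn (fun ω => ω ∈ B) (tI K)ᶜ) :
    Pr d (A ∩ B) = Pr d A * Pr d B :=
  Pr_inter_dep disjoint_compl_right hA hB hAS hBT

/-- exploration with an explored edge `e` whose status is not used by `A` -/
theorem expl_edge (p : ℝ) {K : Set (V d)} {e : Sym2 (V d)} (he : e ∈ (lat d).edgeSet)
    (heK : e ∈ touch K) {A B : Set (Om d)} (hA : MeasurableSet A) (hB : MeasurableSet B)
    (hAS : DependsOn (fun ω => ω ∈ A) (tI K \ {Sum.inl e}))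
    (hBT : DependsOn (fun ω => ω ∈ B) (tI K)ᶜ) :
    Pr d {ω | e ∈ opn p ω ∧ ω ∈ A ∧ ω ∈ B} = ENNReal.ofReal (min p 1) * (Pr d A * Pr d B) := by
  have h1 : {ω : Om d | e ∈ opn p ω ∧ ω ∈ A ∧ ω ∈ B} = {ω | e ∈ opn p ω} ∩ (A ∩ B) := rfl
  rw [h1, ← expl hA hB (hAS.mono Set.sdiff_subset) hBT, ← Pr_edge p he]
  refine Pr_inter_dep (S := {Sum.inl e}) (T := {Sum.inl e}ᶜ) disjoint_compl_right
    (opn_MES p e) (hA.inter hB) (dep_mem_opn p e) (dep_inter (hAS.mono ?_) (hBT.mono ?_))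
  · exact fun i hi => hi.2
  · intro i hi hie
    rw [Set.mem_singleton_iff] at hie
    subst hie
    exact hi (inl_mem_tI.2 heK)

/-- `C(O,y)=K` iff `e` is closed and `C(O\e,y)=K` (`u ∈ K`, `v ∉ K`) -/
theorem Cl_eq_iff_del1 {W : Type*} {O : Set (Sym2 W)} {K : Set W} {u v y : W} (hu : u ∈ K)
    (hv : v ∉ K) : Cl O y = K ↔ s(u, v) ∉ O ∧ Cl (del1 O s(u, v)) y = K := by
  constructor
  · intro h
    have he : s(u, v) ∉ O := by
      intro he
      rw [← h] at hu hv
      exact hv (Cl_closed hu he)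
    exact ⟨he, by rw [del1_of_notMem he]; exact h⟩
  · rintro ⟨he, h⟩
    rwa [del1_of_notMem he] at h

theorem ClA_eq_iff_del1 {W : Type*} {O : Set (Sym2 W)} {A : Del W} {K : Set W} {u v y : W}
    (hu : u ∈ K) (hv : v ∉ K) (hvA : v ∉ A.S) (hF : s(u, v) ∉ A.F) :
    ClA A O y = K ↔ s(u, v) ∉ O ∧ ClA A (del1 O s(u, v)) y = K := by
  constructor
  · intro h
    have he : s(u, v) ∉ O := by
      intro he
      rw [← h] at hu hv
      exact hv (ClA_closed hu he hF hvA)
    exact ⟨he, by rw [del1_of_notMem he]; exact h⟩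
  · rintro ⟨he, h⟩
    rwa [del1_of_notMem he] at h

/-- `P(C(O,y)=K, A) = (1-p) P(C(O\e,y)=K, A)`, `A` any event not depending on `e` -/
theorem Pr_Cl_del1_inter (p : ℝ) (y : V d) {K : Set (V d)} {u v : V d} (huv : (lat d).Adj u v)
    (hu : u ∈ K) (hv : v ∉ K) {A : Set (Om d)} (hA : MeasurableSet A)
    (hAe : DependsOn (fun ω => ω ∈ A) {Sum.inl s(u, v)}ᶜ) :
    Pr d ({ω | Cl (opn p ω) y = K} ∩ A) =
      (1 - ENNReal.ofReal (min p 1)) *
        Pr d ({ω | Cl (del1 (opn p ω) s(u, v)) y = K} ∩ A) := by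
  have h1 : {ω : Om d | Cl (opn p ω) y = K} ∩ A =
      {ω | s(u, v) ∉ opn p ω} ∩ ({ω | Cl (del1 (opn p ω) s(u, v)) y = K} ∩ A) := by
    ext ω
    simp only [Set.mem_inter_iff, Set.mem_ofPred_eq]
    rw [Cl_eq_iff_del1 hu hv, and_assoc]
  rw [h1, ← Pr_edge_not p (e := s(u, v)) (by simpa using huv)]
  refine Pr_inter_dep (S := {Sum.inl s(u, v)}) (T := {Sum.inl s(u, v)}ᶜ) disjoint_compl_right
    (opn_MES p _).compl ((MVS.eq_set (((opn_MES p).del1 _).cl y) K).inter hA)
    (dep_compl (A := {ω : Om d | s(u, v) ∈ opn p ω}) (dep_mem_opn p _)) (dep_inter ?_ hAe)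
  exact (dep_Cl_del1_eq p s(u, v) y K).mono fun i hi => hi.2

theorem Pr_Cl_del1 (p : ℝ) (y : V d) {K : Set (V d)} {u v : V d} (huv : (lat d).Adj u v)
    (hu : u ∈ K) (hv : v ∉ K) :
    Pr d {ω | Cl (opn p ω) y = K} =
      (1 - ENNReal.ofReal (min p 1)) * Pr d {ω | Cl (del1 (opn p ω) s(u, v)) y = K} := by
  have h := Pr_Cl_del1_inter p y huv hu hv MeasurableSet.univ (fun _ _ _ => rfl)
  simpa using h

/-! ### Decomposition over the values of a random set -/

theorem lintegral_split {C : Om d → Set (V d)} (hC : MVS C) (F : Om d → ℝ≥0∞) :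
    ∫⁻ ω, F ω ∂Pr d = (∑' K : Finset (V d), ∫⁻ ω in {ω | C ω = (K : Set (V d))}, F ω ∂Pr d) +
      ∫⁻ ω in {ω | (C ω).Infinite}, F ω ∂Pr d := by
  have hd : Pairwise (Function.onFun Disjoint
      (fun K : Finset (V d) => {ω : Om d | C ω = (K : Set (V d))})) := by
    intro K K' hne
    rw [Function.onFun, Set.disjoint_left]
    intro ω h h'
    exact hne (Finset.coe_injective ((h : C ω = _).symm.trans h'))
  rw [← lintegral_iUnion (fun K => hC.eq_set _) hd]
  have h1 : {ω : Om d | (C ω).Infinite} = (⋃ K : Finset (V d), {ω | C ω = (K : Set (V d))})ᶜ := by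
    ext ω
    simp only [Set.mem_ofPred_eq, Set.mem_compl_iff, Set.mem_iUnion, not_exists]
    constructor
    · intro h K hK
      exact h (by rw [hK]; exact K.finite_toSet)
    · intro h hf
      exact h hf.toFinset (by simp)
  rw [h1]
  exact (lintegral_add_compl F (MeasurableSet.iUnion fun K => hC.eq_set _)).symm

/-- almost surely finite random set -/
theorem lintegral_split_fin {C : Om d → Set (V d)} (hC : MVS C)
    (h0 : Pr d {ω | (C ω).Infinite} = 0) (F : Om d → ℝ≥0∞) :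
    ∫⁻ ω, F ω ∂Pr d = ∑' K : Finset (V d), ∫⁻ ω in {ω | C ω = (K : Set (V d))}, F ω ∂Pr d := by
  rw [lintegral_split hC F, setLIntegral_measure_zero _ _ h0, add_zero]

theorem Pr_split_fin {C : Om d → Set (V d)} (hC : MVS C)
    (h0 : Pr d {ω | (C ω).Infinite} = 0) {A : Set (Om d)} (hA : MeasurableSet A) :
    Pr d A = ∑' K : Finset (V d), Pr d ({ω | C ω = (K : Set (V d))} ∩ A) := by
  have h := lintegral_split_fin hC h0 (A.indicator 1)
  rw [lintegral_indicator_one hA] at h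
  rw [h]
  refine tsum_congr fun K => ?_
  rw [lintegral_indicator_one hA, Measure.restrict_apply hA, Set.inter_comm]

/-! ### Ghosts -/

/-- `P(S ∩ G_h = ∅)` (`h > 0`) -/
noncomputable def ex {W : Type*} (h : ℝ) (S : Set W) : ℝ≥0∞ := by
  classical exact if S.Finite then ENNReal.ofReal (Real.exp (-(h * (S.ncard : ℝ)))) else 0

theorem ex_fin {W : Type*} (h : ℝ) {S : Set W} (hS : S.Finite) :
    ex h S = ENNReal.ofReal (Real.exp (-(h * (S.ncard : ℝ)))) := by
  classical
  simp [ex, hS]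

theorem ex_finset {W : Type*} (h : ℝ) (K : Finset W) :
    ex h (K : Set W) = ENNReal.ofReal (Real.exp (-(h * (K.card : ℝ)))) := by
  rw [ex_fin h K.finite_toSet, Set.ncard_coe_finset]

theorem ex_inf {W : Type*} (h : ℝ) {S : Set W} (hS : S.Infinite) : ex h S = 0 := by
  classical
  simp only [ex, if_neg hS]

theorem ex_le_one {W : Type*} {h : ℝ} (hh : 0 ≤ h) (S : Set W) : ex h S ≤ 1 := by
  by_cases hS : S.Finite
  · rw [ex_fin h hS, ← ENNReal.ofReal_one]
    refine ENNReal.ofReal_le_ofReal (Real.exp_le_one_iff.2 ?_)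
    have : 0 ≤ h * (S.ncard : ℝ) := by positivity
    linarith
  · rw [ex_inf h hS]; exact zero_le_one

theorem ex_anti {W : Type*} {h : ℝ} (hh : 0 ≤ h) {S T : Set W} (hST : S ⊆ T) :
    ex h T ≤ ex h S := by
  by_cases hT : T.Finite
  · rw [ex_fin h hT, ex_fin h (hT.subset hST)]
    refine ENNReal.ofReal_le_ofReal (Real.exp_le_exp.2 ?_)
    have h1 : (S.ncard : ℝ) ≤ T.ncard := by exact_mod_cast Set.ncard_le_ncard hST hT
    nlinarith
  · rw [ex_inf h hT]; exact zero_le

/-- one minus the ghost probability -/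
theorem one_sub_ghost {h : ℝ} (hh : 0 ≤ h) :
    (1 : ℝ≥0∞) - ENNReal.ofReal (min (1 - Real.exp (-h)) 1) = ENNReal.ofReal (Real.exp (-h)) := by
  have h1 : min (1 - Real.exp (-h)) 1 = 1 - Real.exp (-h) :=
    min_eq_left (by linarith [Real.exp_pos (-h)])
  have h2 : Real.exp (-h) ≤ 1 := Real.exp_le_one_iff.2 (by linarith)
  rw [h1, ← ENNReal.ofReal_one, ← ENNReal.ofReal_sub _ (by linarith)]
  congr 1
  ring

theorem Pr_ghost_fin (b : Bool) {h : ℝ} (hh : 0 ≤ h) (K : Finset (V d)) :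
    Pr d {ω | ∀ v ∈ K, v ∉ ghost b h ω} = ENNReal.ofReal (Real.exp (-(h * (K.card : ℝ)))) := by
  classical
  have h1 : {ω : Om d | ∀ v ∈ K, v ∉ ghost b h ω} =
      {ω | ∀ i ∈ K.image (fun v => (Sum.inr (v, b) : Ix d)), 1 - Real.exp (-h) <
        ((ω i : unitInterval) : ℝ)} := by
    ext ω
    simp only [ghost, Set.mem_ofPred_eq, Finset.mem_image, forall_exists_index, and_imp,
      forall_apply_eq_imp_iff₂, not_le]
  have hc : (K.image (fun v => (Sum.inr (v, b) : Ix d))).card = K.card := by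
    refine Finset.card_image_of_injective _ fun v w hvw => ?_
    simpa using hvw
  rw [h1]
  refine (Pr_labels_gt _ _).trans ?_
  rw [one_sub_ghost hh, hc, ← ENNReal.ofReal_pow (Real.exp_pos _).le, ← Real.exp_nat_mul]
  congr 2
  ring

theorem Pr_ghost_disj (b : Bool) {h : ℝ} (hh : 0 < h) (S : Set (V d)) :
    Pr d {ω | Disjoint S (ghost b h ω)} = ex h S := by
  by_cases hS : S.Finite
  · have h1 : {ω : Om d | Disjoint S (ghost b h ω)} = {ω | ∀ v ∈ hS.toFinset, v ∉ ghost b h ω} := by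
      ext ω
      simp only [Set.mem_ofPred_eq, Set.disjoint_left, Set.Finite.mem_toFinset]
    rw [h1, Pr_ghost_fin b hh.le, ex_fin h hS, Set.ncard_eq_toFinset_card S hS]
  · have hinj : Function.Injective (fun v : V d => (Sum.inr (v, b) : Ix d)) := by
      intro v w hvw
      simpa using hvw
    have h1 : {ω : Om d | Disjoint S (ghost b h ω)} =
        {ω | ∀ i ∈ (fun v : V d => (Sum.inr (v, b) : Ix d)) '' S, 1 - Real.exp (-h) <
          ((ω i : unitInterval) : ℝ)} := by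
      ext ω
      simp only [ghost, Set.mem_ofPred_eq, Set.disjoint_left, Set.mem_image, forall_exists_index,
        and_imp, forall_apply_eq_imp_iff₂, not_le]
    rw [h1, ex_inf h hS]
    refine Pr_labels_gt_inf (ι := Ix d) (Set.Infinite.image hinj.injOn hS) ?_
    have : Real.exp (-h) < 1 := by rw [Real.exp_lt_one_iff]; linarith
    linarith

/-- ghost labels of type `b` -/
def gI (d : ℕ) (b : Bool) : Set (Ix d) := {i | ∃ v, i = Sum.inr (v, b)}

theorem measurable_disj {C : Om d → Set (V d)} (hC : MVS C) (b : Bool) (h : ℝ) :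
    MeasurableSet {ω | Disjoint (C ω) (ghost b h ω)} := by
  have h1 : {ω : Om d | Disjoint (C ω) (ghost b h ω)} =
      {ω | ∃ t ∈ C ω, t ∈ ghost b h ω}ᶜ := by
    ext ω
    simp only [Set.mem_ofPred_eq, Set.mem_compl_iff, Set.disjoint_left, not_exists, not_and]
  rw [h1]
  exact (MVS.inter_nonempty (ghost_MVS b h) hC).compl

theorem measurable_ex {h : ℝ} {C : Om d → Set (V d)} (hC : MVS C) :
    Measurable (fun ω => ex h (C ω)) := by
  have h1 : (fun ω => ex h (C ω)) = (fun n : ℕ∞ => if n = ⊤ then (0 : ℝ≥0∞) else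
      ENNReal.ofReal (Real.exp (-(h * (n.toNat : ℝ))))) ∘ fun ω => (C ω).encard := by
    funext ω
    by_cases hf : (C ω).Finite
    · have h2 : (C ω).encard ≠ ⊤ := by rwa [Ne, Set.encard_eq_top_iff, Set.not_infinite]
      rw [ex_fin h hf]
      simp only [Function.comp_apply, if_neg h2]
      rfl
    · have h2 : (C ω).encard = ⊤ := by rw [Set.encard_eq_top_iff]; exact hf
      rw [ex_inf h hf]
      simp only [Function.comp_apply, if_pos h2]
  rw [h1]
  exact (measurable_of_countable _).comp hC.encard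

/-- the ghosts of type `b` given everything else (general form) -/
theorem lintegral_ghost_gen (b : Bool) (h : ℝ) {G : Om d → Set (V d) → ℝ≥0∞}
    (hG : Measurable fun ω => G ω (ghost b h ω))
    (hGd : ∀ S, DependsOn (fun ω => G ω S) (gI d b)ᶜ) :
    ∫⁻ ω, G ω (ghost b h ω) ∂Pr d = ∫⁻ ω, ∫⁻ ω', G ω (ghost b h ω') ∂Pr d ∂Pr d := by
  refine (lintegral_mix (ι := Ix d) (gI d b)ᶜ hG).trans ?_
  refine lintegral_congr fun ω => lintegral_congr fun ω' => ?_
  have hg : ghost b h (mix (gI d b)ᶜ ω ω') = ghost b h ω' := by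
    ext v
    simp only [ghost, Set.mem_ofPred_eq]
    rw [mix_out (by simp [gI])]
  rw [hg]
  exact DependsOn.mix_left (hGd (ghost b h ω')) subset_rfl ω ω'

/-- an event about a random set `C` and the ghosts -/
theorem lintegral_ghost_rel (b : Bool) (h : ℝ) {C : Om d → Set (V d)}
    (hCd : DependsOn C (gI d b)ᶜ) {F : Om d → ℝ≥0∞} (hF : Measurable F)
    (hFd : DependsOn F (gI d b)ᶜ) (R : Set (V d) → Set (V d) → Prop)
    (hR : MeasurableSet {ω | R (C ω) (ghost b h ω)})
    (hR2 : ∀ S : Set (V d), MeasurableSet {ω : Om d | R S (ghost b h ω)}) :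
    ∫⁻ ω in {ω | R (C ω) (ghost b h ω)}, F ω ∂Pr d =
      ∫⁻ ω, F ω * Pr d {ω' | R (C ω) (ghost b h ω')} ∂Pr d := by
  classical
  let G : Om d → Set (V d) → ℝ≥0∞ := fun ω S => if R (C ω) S then F ω else 0
  have h1 : {ω | R (C ω) (ghost b h ω)}.indicator F = fun ω => G ω (ghost b h ω) := by
    funext ω
    by_cases hD : R (C ω) (ghost b h ω)
    · rw [Set.indicator_of_mem (by exact hD)]; simp only [G, if_pos hD]
    · rw [Set.indicator_of_notMem (by exact hD)]; simp only [G, if_neg hD]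
  have hm : Measurable fun ω => G ω (ghost b h ω) := by
    rw [← h1]; exact hF.indicator hR
  rw [← lintegral_indicator hR, h1, lintegral_ghost_gen b h hm]
  · refine lintegral_congr fun ω => ?_
    have h2 : ∀ ω' : Om d, G ω (ghost b h ω') =
        F ω * {ω' : Om d | R (C ω) (ghost b h ω')}.indicator 1 ω' := by
      intro ω'
      by_cases hD : R (C ω) (ghost b h ω')
      · rw [Set.indicator_of_mem (by exact hD)]; simp only [G, if_pos hD]; simp
      · rw [Set.indicator_of_notMem (by exact hD)]; simp only [G, if_neg hD]; simp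
    simp only [h2]
    rw [lintegral_const_mul _ (measurable_one.indicator (hR2 (C ω)))]
    congr 1
    exact lintegral_indicator_one (hR2 (C ω))
  · intro S ω ω' hω
    have hc := hCd hω
    have hf := hFd hω
    simp only [G, hc, hf]

/-- ghosts given everything else -/
theorem lintegral_ghost (b : Bool) {h : ℝ} (hh : 0 < h) {C : Om d → Set (V d)} (hC : MVS C)
    (hCd : DependsOn C (gI d b)ᶜ) {F : Om d → ℝ≥0∞} (hF : Measurable F)
    (hFd : DependsOn F (gI d b)ᶜ) :
    ∫⁻ ω in {ω | Disjoint (C ω) (ghost b h ω)}, F ω ∂Pr d = ∫⁻ ω, F ω * ex h (C ω) ∂Pr d := by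
  rw [lintegral_ghost_rel b h hCd hF hFd (fun S T => Disjoint S T) (measurable_disj hC b h)
    (fun S => measurable_disj (MVS.const S) b h)]
  simp only [Pr_ghost_disj b hh]

/-- complement form: `E[F; C ∩ G_h ≠ ∅] = E[F (1 - e^{-h|C|})]` -/
theorem lintegral_ghost_hit (b : Bool) {h : ℝ} (hh : 0 < h) {C : Om d → Set (V d)} (hC : MVS C)
    (hCd : DependsOn C (gI d b)ᶜ) {F : Om d → ℝ≥0∞} (hF : Measurable F)
    (hFd : DependsOn F (gI d b)ᶜ) :
    ∫⁻ ω in {ω | ∃ t ∈ ghost b h ω, t ∈ C ω}, F ω ∂Pr d =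
      ∫⁻ ω, F ω * (1 - ex h (C ω)) ∂Pr d := by
  rw [lintegral_ghost_rel b h hCd hF hFd (fun S T => ∃ t ∈ T, t ∈ S)
    (MVS.inter_nonempty hC (ghost_MVS b h))
    (fun S => MVS.inter_nonempty (MVS.const S) (ghost_MVS b h))]
  have h1 : ∀ S : Set (V d), Pr d {ω' : Om d | ∃ t ∈ ghost b h ω', t ∈ S} = 1 - ex h S := by
    intro S
    rw [← Pr_ghost_disj b hh S, ← prob_compl_eq_one_sub (measurable_disj (MVS.const S) b h)]
    congr 1
    ext ω
    simp only [Set.mem_ofPred_eq, Set.mem_compl_iff, Set.disjoint_left, not_forall, not_not]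
    constructor
    · rintro ⟨t, h1, h2⟩; exact ⟨t, h2, h1⟩
    · rintro ⟨t, h1, h2⟩; exact ⟨t, h2, h1⟩
  simp only [h1]

theorem dep_Cl_opn_gI (p : ℝ) (y : V d) (b : Bool) :
    DependsOn (fun ω : Om d => Cl (opn p ω) y) (gI d b)ᶜ := by
  have h1 := dep_opn (d := d) p Set.univ (S := (gI d b)ᶜ) (fun e _ => by simp [gI])
  intro ω ω' h
  have h2 := h1 h
  simp only [Set.inter_univ] at h2
  simp only [h2]

/-- `M(p,h) = E[1 - e^{-hN}]` -/
theorem Mg_eq (p : ℝ) {h : ℝ} (hh : 0 < h) :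
    Mg d p h = ∫⁻ ω, (1 - ex h (Cl (opn p ω) (0 : V d))) ∂Pr d := by
  have h1 := lintegral_ghost_hit (d := d) false hh (C := fun ω => Cl (opn p ω) 0)
    ((opn_MES p).cl 0) (dep_Cl_opn_gI p 0 false) (F := fun _ => 1) measurable_const
    (fun _ _ _ => rfl)
  simp only [one_mul, setLIntegral_const] at h1
  rw [← h1]
  rfl

end Pool.Agent.PB
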