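import Pool.Agent.PB.Defs

/-!
PROJECT PB, P/Mix: independence of labels (Section 1.2 of pb_proof_1.md), any index set.
-/

set_option autoImplicit false
open MeasureTheory Filter Topology
open scoped ENNReal BigOperators

namespace Pool.Agent.PB

/-- the product of uniform measures over any index set -/
noncomputable abbrev PrI (ι : Type*) : Measure (ι → unitInterval) :=
  Measure.infinitePi (fun _ : ι => (volume : Measure unitInterval))

theorem Pr_eq (d : ℕ) : Pr d = PrI (Ix d) := rfl

/-- `mix S ω ω'`: `ω` on `S`, `ω'` off `S` -/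
noncomputable def mix {ι α : Type*} (S : Set ι) (ω ω' : ι → α) : ι → α := by
  classical exact fun i => if i ∈ S then ω i else ω' i

theorem mix_in {ι α : Type*} {S : Set ι} {i : ι} (hi : i ∈ S) (ω ω' : ι → α) :
    mix S ω ω' i = ω i := by
  classical
  simp [mix, hi]

theorem mix_out {ι α : Type*} {S : Set ι} {i : ι} (hi : i ∉ S) (ω ω' : ι → α) :
    mix S ω ω' i = ω' i := by
  classical
  simp [mix, hi]

theorem mix_compl {ι α : Type*} (S : Set ι) (ω ω' : ι → α) : mix Sᶜ ω ω' = mix S ω' ω := by
  classical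
  funext i
  by_cases hi : i ∈ S
  · rw [mix_in hi, mix_out (by simpa using hi)]
  · rw [mix_out hi, mix_in (by simpa using hi)]

theorem DependsOn.mix_left {ι α β : Type*} {S T : Set ι} {f : (ι → α) → β}
    (hf : DependsOn f S) (h : S ⊆ T) (ω ω' : ι → α) : f (mix T ω ω') = f ω :=
  hf fun _ hi => mix_in (h hi) ω ω'

theorem DependsOn.mix_right {ι α β : Type*} {S T : Set ι} {f : (ι → α) → β}
    (hf : DependsOn f S) (h : Disjoint S T) (ω ω' : ι → α) : f (mix T ω ω') = f ω' :=
  hf fun _ hi => mix_out (fun hT => Set.disjoint_left.1 h hi hT) ω ω'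

theorem measurable_mix {ι : Type*} (S : Set ι) :
    Measurable (fun q : (ι → unitInterval) × (ι → unitInterval) => mix S q.1 q.2) := by
  classical
  refine measurable_pi_lambda _ fun i => ?_
  by_cases hi : i ∈ S
  · simp only [mix_in hi]; fun_prop
  · simp only [mix_out hi]; fun_prop

theorem mix_mp {ι : Type*} (S : Set ι) :
    MeasurePreserving (fun q : (ι → unitInterval) × (ι → unitInterval) => mix S q.1 q.2)
      ((PrI ι).prod (PrI ι)) (PrI ι) := by
  classical
  refine ⟨measurable_mix S, ?_⟩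
  refine Measure.eq_infinitePi _ fun s t ht => ?_
  rw [Measure.map_apply (measurable_mix S)
    (MeasurableSet.pi s.countable_toSet fun i _ => ht i)]
  have h1 : (fun q : (ι → unitInterval) × (ι → unitInterval) => mix S q.1 q.2) ⁻¹'
      (Set.pi (s : Set ι) t) =
      (Set.pi ((s.filter (· ∈ S) : Finset ι) : Set ι) t) ×ˢ
        (Set.pi ((s.filter (· ∉ S) : Finset ι) : Set ι) t) := by
    ext q
    simp only [Set.mem_preimage, Set.mem_pi, Finset.mem_coe, Set.mem_prod, Finset.mem_filter]
    constructor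
    · intro h
      refine ⟨fun i hi => ?_, fun i hi => ?_⟩
      · have := h i hi.1; rwa [mix_in hi.2] at this
      · have := h i hi.1; rwa [mix_out hi.2] at this
    · rintro ⟨h, h'⟩ i hi
      by_cases hS : i ∈ S
      · rw [mix_in hS]; exact h i ⟨hi, hS⟩
      · rw [mix_out hS]; exact h' i ⟨hi, hS⟩
  rw [h1, Measure.prod_prod, Measure.infinitePi_pi _ (fun i _ => ht i),
    Measure.infinitePi_pi _ (fun i _ => ht i)]
  exact Finset.prod_filter_mul_prod_filter_not s (· ∈ S) _

theorem lintegral_mix {ι : Type*} (S : Set ι) {F : (ι → unitInterval) → ℝ≥0∞}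
    (hF : Measurable F) :
    ∫⁻ ω, F ω ∂PrI ι = ∫⁻ ω, ∫⁻ ω', F (mix S ω ω') ∂PrI ι ∂PrI ι := by
  rw [← (mix_mp S).lintegral_comp hF]
  exact lintegral_prod (fun q : (ι → unitInterval) × (ι → unitInterval) => F (mix S q.1 q.2))
    (hF.comp (measurable_mix S)).aemeasurable

theorem lintegral_mul_indep {ι : Type*} {S T : Set ι} (hST : Disjoint S T)
    {f g : (ι → unitInterval) → ℝ≥0∞} (hf : Measurable f) (hg : Measurable g)
    (hfS : DependsOn f S) (hgT : DependsOn g T) :
    ∫⁻ ω, f ω * g ω ∂PrI ι = (∫⁻ ω, f ω ∂PrI ι) * ∫⁻ ω, g ω ∂PrI ι := by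
  rw [lintegral_mix S (F := fun ω => f ω * g ω) (hf.mul hg)]
  have h2 : ∀ ω ω', f (mix S ω ω') * g (mix S ω ω') = f ω * g ω' := by
    intro ω ω'
    rw [DependsOn.mix_left hfS subset_rfl, DependsOn.mix_right hgT hST.symm]
  simp only [h2]
  simp_rw [lintegral_const_mul _ hg]
  rw [lintegral_mul_const _ hf]

theorem Pr_inter_indep {ι : Type*} {S T : Set ι} (hST : Disjoint S T)
    {A B : Set (ι → unitInterval)} (hA : MeasurableSet A) (hB : MeasurableSet B)
    (hAS : DependsOn (fun ω => ω ∈ A) S) (hBT : DependsOn (fun ω => ω ∈ B) T) :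
    PrI ι (A ∩ B) = PrI ι A * PrI ι B := by
  classical
  have h := lintegral_mul_indep hST (f := A.indicator 1) (g := B.indicator 1)
    (measurable_one.indicator hA) (measurable_one.indicator hB)
    (fun x y hxy => by
      have := hAS hxy
      simp only [eq_iff_iff] at this
      simp only [Set.indicator_apply, this, Pi.one_apply])
    (fun x y hxy => by
      have := hBT hxy
      simp only [eq_iff_iff] at this
      simp only [Set.indicator_apply, this, Pi.one_apply])
  rw [lintegral_indicator_one hA, lintegral_indicator_one hB] at h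
  rw [← h, ← lintegral_indicator_one (hA.inter hB)]
  refine lintegral_congr fun ω => ?_
  by_cases h1 : ω ∈ A <;> by_cases h2 : ω ∈ B <;> simp [h1, h2]

theorem vol_le (p : ℝ) :
    (volume : Measure unitInterval) {x : unitInterval | (x : ℝ) ≤ p} =
      ENNReal.ofReal (min p 1) := by
  rcases lt_or_ge p 0 with h0 | h0
  · have : {x : unitInterval | (x : ℝ) ≤ p} = ∅ := by
      ext x
      simp only [Set.mem_ofPred_eq, Set.mem_empty_iff_false, iff_false, not_le]
      exact lt_of_lt_of_le h0 x.2.1
    rw [this, measure_empty, ENNReal.ofReal_of_nonpos (le_trans (min_le_left _ _) h0.le)]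
  · have hm : min p 1 ∈ Set.Icc (0 : ℝ) 1 := ⟨le_min h0 zero_le_one, min_le_right _ _⟩
    have : {x : unitInterval | (x : ℝ) ≤ p} = Set.Iic (⟨min p 1, hm⟩ : unitInterval) := by
      ext x
      simp only [Set.mem_ofPred_eq, Set.mem_Iic, ← Subtype.coe_le_coe, le_min_iff]
      exact ⟨fun h => ⟨h, x.2.2⟩, fun h => h.1⟩
    rw [this, unitInterval.volume_Iic]

theorem meas_le {ι : Type*} (i : ι) (p : ℝ) :
    MeasurableSet {ω : ι → unitInterval | ((ω i : unitInterval) : ℝ) ≤ p} :=
  measurableSet_le (by fun_prop) (by fun_prop)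

theorem vol_gt (p : ℝ) :
    (volume : Measure unitInterval) {x : unitInterval | p < (x : ℝ)} =
      1 - ENNReal.ofReal (min p 1) := by
  have h : {x : unitInterval | p < (x : ℝ)} = {x : unitInterval | (x : ℝ) ≤ p}ᶜ := by
    ext x; simp
  rw [h, prob_compl_eq_one_sub (measurableSet_le (by fun_prop) (by fun_prop)), vol_le p]

/-- the law of one label -/
theorem Pr_label_le {ι : Type*} (i : ι) (p : ℝ) :
    PrI ι {ω | ((ω i : unitInterval) : ℝ) ≤ p} = ENNReal.ofReal (min p 1) := by
  have h1 : {ω : ι → unitInterval | ((ω i : unitInterval) : ℝ) ≤ p} =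
      (fun ω : ι → unitInterval => ω i) ⁻¹' {x : unitInterval | (x : ℝ) ≤ p} := rfl
  rw [h1, (measurePreserving_eval_infinitePi (fun _ : ι => (volume : Measure unitInterval))
    i).measure_preimage (measurableSet_le (by fun_prop) (by fun_prop)).nullMeasurableSet, vol_le]

/-- the law of finitely many labels -/
theorem Pr_labels_pi {ι : Type*} (F : Finset ι) {t : ι → Set unitInterval}
    (ht : ∀ i ∈ F, MeasurableSet (t i)) :
    PrI ι {ω | ∀ i ∈ F, ω i ∈ t i} = ∏ i ∈ F, (volume : Measure unitInterval) (t i) := by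
  have h1 : {ω : ι → unitInterval | ∀ i ∈ F, ω i ∈ t i} = Set.pi (F : Set ι) t := by
    ext ω; simp [Set.mem_pi]
  rw [h1, Measure.infinitePi_pi _ ht]

/-- none of finitely many labels is `≤ p` -/
theorem Pr_labels_gt {ι : Type*} (F : Finset ι) (p : ℝ) :
    PrI ι {ω | ∀ i ∈ F, p < ((ω i : unitInterval) : ℝ)} =
      (1 - ENNReal.ofReal (min p 1)) ^ F.card := by
  have h := Pr_labels_pi F (t := fun _ => {x : unitInterval | p < (x : ℝ)})
    (fun i _ => measurableSet_lt (by fun_prop) (by fun_prop))
  rw [Finset.prod_const, vol_gt] at h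
  exact h

/-- infinitely many labels: some label is `≤ p` almost surely (`p > 0`) -/
theorem Pr_labels_gt_inf {ι : Type*} {S : Set ι} (hS : S.Infinite) {p : ℝ} (hp : 0 < p) :
    PrI ι {ω | ∀ i ∈ S, p < ((ω i : unitInterval) : ℝ)} = 0 := by
  have h1 : ∀ n : ℕ, PrI ι {ω | ∀ i ∈ S, p < ((ω i : unitInterval) : ℝ)} ≤
      (1 - ENNReal.ofReal (min p 1)) ^ n := by
    intro n
    obtain ⟨F, hF, hn⟩ := hS.exists_subset_card_eq n
    rw [← hn, ← Pr_labels_gt F p]
    exact measure_mono fun ω hω i hi => hω i (hF hi)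
  have h2 : (1 - ENNReal.ofReal (min p 1)) < 1 := by
    refine ENNReal.sub_lt_self ENNReal.one_ne_top one_ne_zero ?_
    rw [Ne, ENNReal.ofReal_eq_zero, not_le]
    exact lt_min hp one_pos
  have h3 := ENNReal.tendsto_pow_atTop_nhds_zero_of_lt_one h2
  exact le_antisymm (ge_of_tendsto' h3 h1) bot_le

/-- `Σ` form: any countable family of events given by one label -/
theorem Pr_label_eq {ι : Type*} (i : ι) (p : ℝ) :
    PrI ι {ω | ((ω i : unitInterval) : ℝ) = p} = 0 := by
  by_cases hp : p ∈ Set.Icc (0 : ℝ) 1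
  · have h1 : {ω : ι → unitInterval | ((ω i : unitInterval) : ℝ) = p} =
        (fun ω : ι → unitInterval => ω i) ⁻¹' {(⟨p, hp⟩ : unitInterval)} := by
      ext ω
      simp only [Set.mem_ofPred_eq, Set.mem_preimage, Set.mem_singleton_iff, Subtype.ext_iff]
    rw [h1, (measurePreserving_eval_infinitePi (fun _ : ι => (volume : Measure unitInterval))
      i).measure_preimage (measurableSet_singleton _).nullMeasurableSet, measure_singleton]
  · have h1 : {ω : ι → unitInterval | ((ω i : unitInterval) : ℝ) = p} = ∅ := by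
      ext ω
      simp only [Set.mem_ofPred_eq, Set.mem_empty_iff_false, iff_false]
      intro h
      exact hp (h ▸ (ω i).2)
    rw [h1, measure_empty]

end Pool.Agent.PB
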