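import Pool.Agent.PB.P.Mix
import Pool.Agent.PB.Meas

/-!
PROJECT PB, P/Act: lattice automorphisms (translations, coordinate permutations, reflections) act
on the labels; `Pr d` is invariant (for ALL sets and all functions: the action is a measurable
equivalence).

`act φ ω` is the configuration seen through `φ`: `Rch (opn p (act φ ω)) x y ↔ Rch (opn p ω) (φ x) (φ y)`.
-/

set_option autoImplicit false
open MeasureTheory Filter Topology
open scoped ENNReal BigOperators

namespace Pool.Agent.PB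

variable {d : ℕ}

/-! ### Any index set -/

/-- relabelling as a measurable equivalence -/
def relab {ι : Type*} (σ : ι ≃ ι) : (ι → unitInterval) ≃ᵐ (ι → unitInterval) where
  toFun ω i := ω (σ i)
  invFun ω i := ω (σ.symm i)
  left_inv ω := by funext i; simp
  right_inv ω := by funext i; simp
  measurable_toFun := by
    refine measurable_pi_lambda _ fun i => ?_
    exact measurable_pi_apply _
  measurable_invFun := by
    refine measurable_pi_lambda _ fun i => ?_
    exact measurable_pi_apply _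

theorem relab_mp {ι : Type*} (σ : ι ≃ ι) : MeasurePreserving (relab σ) (PrI ι) (PrI ι) := by
  refine ⟨(relab σ).measurable, ?_⟩
  exact Measure.map_infinitePi_infinitePi_of_inj (P := fun _ : ι => (volume : Measure unitInterval))
    σ.injective

theorem lintegral_comp_equiv {ι : Type*} (σ : ι ≃ ι) (F : (ι → unitInterval) → ℝ≥0∞) :
    ∫⁻ ω, F (fun i => ω (σ i)) ∂PrI ι = ∫⁻ ω, F ω ∂PrI ι :=
  (relab_mp σ).lintegral_comp_emb (relab σ).measurableEmbedding F

theorem measure_comp_equiv {ι : Type*} (σ : ι ≃ ι) (A : Set (ι → unitInterval)) :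
    PrI ι {ω | (fun i => ω (σ i)) ∈ A} = PrI ι A :=
  (relab_mp σ).measure_preimage_emb (relab σ).measurableEmbedding A

/-- graph morphism transport of connections -/
theorem Rch.map {W W' : Type*} {O : Set (Sym2 W)} {O' : Set (Sym2 W')} (f : W → W')
    (h : ∀ a b, s(a, b) ∈ O → s(f a, f b) ∈ O') {x y : W} (hxy : Rch O x y) :
    Rch O' (f x) (f y) := by
  induction hxy with
  | refl => exact Relation.ReflTransGen.refl
  | tail _ h2 ih => exact ih.tail (h _ _ h2)

theorem Rch_equiv {W W' : Type*} {O : Set (Sym2 W)} {O' : Set (Sym2 W')} (f : W ≃ W')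
    (h : ∀ a b, s(a, b) ∈ O ↔ s(f a, f b) ∈ O') (x y : W) :
    Rch O x y ↔ Rch O' (f x) (f y) := by
  constructor
  · exact Rch.map f fun a b => (h a b).1
  · intro h1
    have := Rch.map (O' := O) f.symm (fun a b hab => by rw [h]; simpa using hab) h1
    simpa using this

/-! ### Automorphisms of the lattice -/

/-- `φ` is an automorphism of the lattice -/
def IsAut (φ : V d ≃ V d) : Prop := ∀ x y, (lat d).Adj (φ x) (φ y) ↔ (lat d).Adj x y

/-- action on edges -/
def symE {W : Type*} (φ : W ≃ W) : Sym2 W ≃ Sym2 W where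
  toFun := Sym2.map φ
  invFun := Sym2.map φ.symm
  left_inv e := by rw [Sym2.map_map]; simp
  right_inv e := by rw [Sym2.map_map]; simp

/-- action on the indices of the labels -/
def autI (φ : V d ≃ V d) : Ix d ≃ Ix d :=
  Equiv.sumCongr (symE φ) (Equiv.prodCongr φ (Equiv.refl Bool))

/-- action on the labels -/
def act (φ : V d ≃ V d) (ω : Om d) : Om d := fun i => ω (autI φ i)

theorem act_inl (φ : V d ≃ V d) (ω : Om d) (e : Sym2 (V d)) :
    act φ ω (Sum.inl e) = ω (Sum.inl (Sym2.map φ e)) := rfl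

theorem act_inr (φ : V d ≃ V d) (ω : Om d) (v : V d) (b : Bool) :
    act φ ω (Sum.inr (v, b)) = ω (Sum.inr (φ v, b)) := rfl

theorem lintegral_act (φ : V d ≃ V d) (F : Om d → ℝ≥0∞) :
    ∫⁻ ω, F (act φ ω) ∂Pr d = ∫⁻ ω, F ω ∂Pr d :=
  lintegral_comp_equiv (autI φ) F

theorem Pr_act (φ : V d ≃ V d) (A : Set (Om d)) : Pr d {ω | act φ ω ∈ A} = Pr d A :=
  measure_comp_equiv (autI φ) A

theorem act_mp (φ : V d ≃ V d) : MeasurePreserving (act φ) (Pr d) (Pr d) :=
  relab_mp (autI φ)

theorem mem_opn_act {φ : V d ≃ V d} (hφ : IsAut φ) (p : ℝ) (ω : Om d) (a b : V d) :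
    s(a, b) ∈ opn p (act φ ω) ↔ s(φ a, φ b) ∈ opn p ω := by
  unfold opn
  simp only [Set.mem_ofPred_eq, SimpleGraph.mem_edgeSet, act_inl, Sym2.map_mk, hφ a b]

theorem opn_act {φ : V d ≃ V d} (hφ : IsAut φ) (p : ℝ) (ω : Om d) :
    opn p (act φ ω) = {e | Sym2.map φ e ∈ opn p ω} := by
  ext e
  induction e using Sym2.ind with
  | _ a b => exact mem_opn_act hφ p ω a b

theorem mem_ghost_act (φ : V d ≃ V d) (c : Bool) (h : ℝ) (ω : Om d) (v : V d) :
    v ∈ ghost c h (act φ ω) ↔ φ v ∈ ghost c h ω := Iff.rfl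

theorem Rch_act {φ : V d ≃ V d} (hφ : IsAut φ) (p : ℝ) (ω : Om d) (x y : V d) :
    Rch (opn p (act φ ω)) x y ↔ Rch (opn p ω) (φ x) (φ y) := by
  exact Rch_equiv φ (fun a b => mem_opn_act hφ p ω a b) x y

/-- deletion moved by `φ` (`φ '' A`) -/
def Del.img {W : Type*} (φ : W ≃ W) (A : Del W) : Del W := ⟨φ '' A.S, Sym2.map φ '' A.F⟩

/-- connections off a deletion: `A` seen through `φ` is `φ '' A` -/
theorem Rch_rem_act {φ : V d ≃ V d} (hφ : IsAut φ) (p : ℝ) (ω : Om d) (A : Del (V d)) (x y : V d) :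
    Rch (A.rem (opn p (act φ ω))) x y ↔ Rch ((A.img φ).rem (opn p ω)) (φ x) (φ y) := by
  refine Rch_equiv φ (fun a b => ?_) x y
  have h1 : s(φ a, φ b) ∈ Sym2.map φ '' A.F ↔ s(a, b) ∈ A.F := by
    have : s(φ a, φ b) = symE φ s(a, b) := rfl
    rw [this]
    exact (symE φ).injective.mem_set_image
  simp only [Del.rem, Del.img, Set.mem_ofPred_eq, mem_opn_act hφ, h1, Sym2.mem_iff, forall_eq_or_imp,
    forall_eq, φ.injective.mem_set_image]

/-! ### The automorphisms -/

/-- translation by `a` -/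
def trI (a : V d) : V d ≃ V d := Equiv.addRight a

theorem trI_apply (a x : V d) : trI a x = x + a := rfl

theorem trI_aut (a : V d) : IsAut (trI a) := by
  intro x y
  show l1 (y + a - (x + a)) = 1 ↔ l1 (y - x) = 1
  rw [add_sub_add_right_eq_sub]

/-- `x ↦ -x` -/
def ngI : V d ≃ V d := Equiv.neg (V d)

theorem ngI_aut : IsAut (ngI : V d ≃ V d) := by
  intro x y
  show l1 (-y - -x) = 1 ↔ l1 (y - x) = 1
  have : l1 (-y - -x) = l1 (y - x) := by
    unfold l1
    refine Finset.sum_congr rfl fun i _ => ?_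
    simp only [Pi.sub_apply, Pi.neg_apply]
    rw [neg_sub_neg, abs_sub_comm]
  rw [this]

/-- permutation of the coordinates: `(pmI σ x) i = x (σ i)` -/
def pmI (σ : Equiv.Perm (Fin d)) : V d ≃ V d where
  toFun x i := x (σ i)
  invFun x i := x (σ.symm i)
  left_inv x := by funext i; simp
  right_inv x := by funext i; simp

theorem pmI_aut (σ : Equiv.Perm (Fin d)) : IsAut (pmI σ) := by
  intro x y
  have : l1 (pmI σ y - pmI σ x) = l1 (y - x) := by
    unfold l1
    exact Equiv.sum_comp σ (fun i => |(y - x) i|)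
  show l1 (pmI σ y - pmI σ x) = 1 ↔ l1 (y - x) = 1
  rw [this]

/-- reflection of the `j`-th coordinate -/
def rfI (j : Fin d) : V d ≃ V d where
  toFun x := Function.update x j (-x j)
  invFun x := Function.update x j (-x j)
  left_inv x := by simp
  right_inv x := by simp

theorem rfI_aut (j : Fin d) : IsAut (rfI j : V d ≃ V d) := by
  intro x y
  have : l1 (rfI j y - rfI j x) = l1 (y - x) := by
    unfold l1
    refine Finset.sum_congr rfl fun i _ => ?_
    simp only [Pi.sub_apply, rfI, Equiv.coe_fn_mk]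
    by_cases h : i = j
    · subst h
      rw [Function.update_self, Function.update_self, neg_sub_neg, abs_sub_comm]
    · rw [Function.update_of_ne h, Function.update_of_ne h]
  show l1 (rfI j y - rfI j x) = 1 ↔ l1 (y - x) = 1
  rw [this]

/-! ### Consequences for the two-point function -/

theorem tau_shift (p : ℝ) (x y : V d) :
    Pr d {ω | Rch (opn p ω) x y} = tau p (y - x) := by
  unfold tau
  rw [← Pr_act (trI x) {ω | Rch (opn p ω) 0 (y - x)}]
  congr 1
  ext ω
  simp only [Set.mem_ofPred_eq]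
  rw [Rch_act (trI_aut x)]
  simp [trI_apply]

theorem tau_aut {φ : V d ≃ V d} (hφ : IsAut φ) (h0 : φ 0 = 0) (p : ℝ) (x : V d) :
    tau p (φ x) = tau p x := by
  unfold tau
  rw [← Pr_act φ {ω | Rch (opn p ω) 0 x}]
  congr 1
  ext ω
  simp only [Set.mem_ofPred_eq]
  rw [Rch_act hφ, h0]

theorem tau_neg (p : ℝ) (x : V d) : tau p (-x) = tau p x :=
  tau_aut (φ := ngI) ngI_aut (by simp [ngI]) p x

theorem tau_perm (σ : Equiv.Perm (Fin d)) (p : ℝ) (x : V d) :
    tau p (fun i => x (σ i)) = tau p x :=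
  tau_aut (φ := pmI σ) (pmI_aut σ) (by funext i; rfl) p x

theorem tau_refl (j : Fin d) (p : ℝ) (x : V d) :
    tau p (Function.update x j (-x j)) = tau p x :=
  tau_aut (φ := rfI j) (rfI_aut j) (by
    show Function.update (0 : V d) j (-(0 : V d) j) = 0
    simp) p x

theorem tau_zero (p : ℝ) : tau p (0 : V d) = 1 := by
  unfold tau
  have : {ω : Om d | Rch (opn p ω) 0 0} = Set.univ := by
    ext ω; simp only [Set.mem_ofPred_eq, Set.mem_univ, iff_true]; exact Relation.ReflTransGen.refl
  rw [this, measure_univ]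

theorem tau_le_one (p : ℝ) (x : V d) : tau p x ≤ 1 := prob_le_one

theorem tau_mono {p q : ℝ} (h : p ≤ q) (x : V d) : tau p x ≤ tau q x :=
  measure_mono fun ω hω => Rch.map (fun x => x) (fun _ _ he => opn_mono h ω he) hω

/-- translation invariance of the percolation probability and of the magnetisation -/
theorem theta_shift (p : ℝ) (y : V d) :
    Pr d {ω | (Cl (opn p ω) y).Infinite} = theta d p := by
  unfold theta
  rw [← Pr_act (trI y) {ω | (Cl (opn p ω) 0).Infinite}]
  congr 1
  ext ω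
  simp only [Set.mem_ofPred_eq]
  have : Cl (opn p (act (trI y) ω)) 0 = (trI y) ⁻¹' Cl (opn p ω) y := by
    ext x
    simp only [Cl, Set.mem_ofPred_eq, Set.mem_preimage]
    rw [Rch_act (trI_aut y)]
    simp [trI_apply]
  rw [this]
  constructor
  · intro h
    exact h.preimage (by rw [(trI y).surjective.range_eq]; exact Set.subset_univ _)
  · intro h hf
    exact h (hf.preimage (trI y).injective.injOn)

theorem Mg_shift (p h : ℝ) (y : V d) :
    Pr d {ω | RchT (opn p ω) y (ghost false h ω)} = Mg d p h := by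
  unfold Mg
  rw [← Pr_act (trI y) {ω | RchT (opn p ω) 0 (ghost false h ω)}]
  congr 1
  ext ω
  simp only [Set.mem_ofPred_eq, RchT, mem_ghost_act, Rch_act (trI_aut y)]
  constructor
  · rintro ⟨t, ht, h⟩
    exact ⟨t - y, by simpa [trI_apply] using ht, by simpa [trI_apply] using h⟩
  · rintro ⟨t, ht, h⟩
    exact ⟨t + y, by simpa [trI_apply] using ht, by simpa [trI_apply] using h⟩

end Pool.Agent.PB
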