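import Pool.Agent.PB.Link

/-!
PROJECT PB, P/Conv: algebra of `conv`, `cpow`, `nrm`, `supn` on `ℤ^d` (values in `[0,∞]`).
-/

set_option autoImplicit false
open MeasureTheory Filter Topology
open scoped ENNReal BigOperators

namespace Pool.Agent.PB

variable {d : ℕ}

theorem conv_comm (f g : V d → ℝ≥0∞) : conv f g = conv g f := by
  funext x
  unfold conv
  rw [← (Equiv.subLeft x).tsum_eq]
  refine tsum_congr fun y => ?_
  simp only [Equiv.subLeft_apply, sub_sub_cancel]
  rw [mul_comm]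

theorem conv_mono {f f' g g' : V d → ℝ≥0∞} (hf : ∀ x, f x ≤ f' x) (hg : ∀ x, g x ≤ g' x)
    (x : V d) : conv f g x ≤ conv f' g' x :=
  ENNReal.tsum_le_tsum fun y => mul_le_mul' (hf y) (hg _)

theorem conv_add_right (f g h : V d → ℝ≥0∞) : conv f (fun x => g x + h x) =
    fun x => conv f g x + conv f h x := by
  funext x
  unfold conv
  rw [← ENNReal.tsum_add]
  exact tsum_congr fun y => mul_add _ _ _

theorem conv_add_left (f g h : V d → ℝ≥0∞) : conv (fun x => f x + g x) h =
    fun x => conv f h x + conv g h x := by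
  rw [conv_comm, conv_add_right, conv_comm h f, conv_comm h g]

theorem conv_const_mul_right (c : ℝ≥0∞) (f g : V d → ℝ≥0∞) : conv f (fun x => c * g x) =
    fun x => c * conv f g x := by
  funext x
  unfold conv
  rw [← ENNReal.tsum_mul_left]
  exact tsum_congr fun y => by ring

theorem conv_const_mul_left (c : ℝ≥0∞) (f g : V d → ℝ≥0∞) : conv (fun x => c * f x) g =
    fun x => c * conv f g x := by
  rw [conv_comm, conv_const_mul_right, conv_comm g f]

theorem conv_tsum_right {ι : Type*} (f : V d → ℝ≥0∞) (g : ι → V d → ℝ≥0∞) (x : V d) :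
    conv f (fun y => ∑' i, g i y) x = ∑' i, conv f (g i) x := by
  unfold conv
  rw [ENNReal.tsum_comm]
  exact tsum_congr fun y => ENNReal.tsum_mul_left.symm

theorem dlt_zero : dlt (0 : V d) = 1 := by
  classical
  simp [dlt]

theorem dlt_of_ne {x : V d} (hx : x ≠ 0) : dlt x = 0 := by
  classical
  simp [dlt, hx]

theorem dlt_conv (f : V d → ℝ≥0∞) : conv dlt f = f := by
  funext x
  unfold conv
  rw [tsum_eq_single 0 (fun y hy => by rw [dlt_of_ne hy, zero_mul]), dlt_zero, one_mul, sub_zero]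

theorem conv_dlt (f : V d → ℝ≥0∞) : conv f dlt = f := by
  rw [conv_comm, dlt_conv]

/-- translation of one factor -/
theorem conv_shift_left (f g : V d → ℝ≥0∞) (a x : V d) :
    conv (fun y => f (y - a)) g x = conv f g (x - a) := by
  unfold conv
  rw [← (Equiv.addRight a).tsum_eq]
  refine tsum_congr fun y => ?_
  simp only [Equiv.coe_addRight, add_sub_cancel_right]
  rw [sub_sub, add_comm y a]

theorem conv_shift_right (f g : V d → ℝ≥0∞) (a x : V d) :
    conv f (fun y => g (y - a)) x = conv f g (x - a) := by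
  rw [conv_comm, conv_shift_left, conv_comm]

theorem conv_assoc (f g h : V d → ℝ≥0∞) : conv (conv f g) h = conv f (conv g h) := by
  funext x
  have h1 : conv (conv f g) h x = ∑' y, ∑' z, f z * g (y - z) * h (x - y) :=
    tsum_congr fun y => ENNReal.tsum_mul_right.symm
  rw [h1, ENNReal.tsum_comm]
  refine tsum_congr fun z => ?_
  have h2 : conv g h (x - z) = ∑' y, g (y - z) * h (x - y) := by
    rw [← conv_shift_left]; rfl
  rw [h2, ← ENNReal.tsum_mul_left]
  exact tsum_congr fun y => mul_assoc _ _ _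

theorem conv_left_comm (f g h : V d → ℝ≥0∞) : conv f (conv g h) = conv g (conv f h) := by
  rw [← conv_assoc, conv_comm f g, conv_assoc]

/-- evenness -/
theorem conv_even {f g : V d → ℝ≥0∞} (hf : ∀ x, f (-x) = f x) (hg : ∀ x, g (-x) = g x) (x : V d) :
    conv f g (-x) = conv f g x := by
  unfold conv
  rw [← (Equiv.neg (V d)).tsum_eq]
  refine tsum_congr fun y => ?_
  simp only [Equiv.neg_apply]
  have : -x - -y = -(x - y) := by abel
  rw [hf, this, hg]

theorem dlt_even (x : V d) : dlt (-x) = dlt x := by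
  by_cases hx : x = 0
  · simp [hx]
  · rw [dlt_of_ne hx, dlt_of_ne (by simpa using hx)]

@[simp] theorem cpow_zero (f : V d → ℝ≥0∞) : cpow f 0 = dlt := rfl

theorem cpow_succ (f : V d → ℝ≥0∞) (m : ℕ) : cpow f (m + 1) = conv f (cpow f m) := rfl

theorem cpow_one (f : V d → ℝ≥0∞) : cpow f 1 = f := by
  rw [cpow_succ, cpow_zero, conv_dlt]

theorem cpow_two (f : V d → ℝ≥0∞) : cpow f 2 = conv f f := by
  rw [cpow_succ, cpow_one]

theorem cpow_add (f : V d → ℝ≥0∞) (m n : ℕ) : cpow f (m + n) = conv (cpow f m) (cpow f n) := by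
  induction m with
  | zero => rw [Nat.zero_add, cpow_zero, dlt_conv]
  | succ m ih =>
    have : m + 1 + n = (m + n) + 1 := by ring
    rw [this, cpow_succ, ih, cpow_succ, conv_assoc]

theorem cpow_succ' (f : V d → ℝ≥0∞) (m : ℕ) : cpow f (m + 1) = conv (cpow f m) f := by
  rw [cpow_add, cpow_one]

theorem cpow_three (f : V d → ℝ≥0∞) : cpow f 3 = conv f (conv f f) := by
  rw [cpow_succ, cpow_two]

theorem cpow_four (f : V d → ℝ≥0∞) : cpow f 4 = conv (conv f f) (conv f f) := by
  rw [show (4 : ℕ) = 2 + 2 from rfl, cpow_add, cpow_two]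

theorem cpow_even {f : V d → ℝ≥0∞} (hf : ∀ x, f (-x) = f x) (m : ℕ) (x : V d) :
    cpow f m (-x) = cpow f m x := by
  induction m generalizing x with
  | zero => exact dlt_even x
  | succ m ih => exact conv_even hf ih x

theorem cpow_mono {f g : V d → ℝ≥0∞} (h : ∀ x, f x ≤ g x) (m : ℕ) (x : V d) :
    cpow f m x ≤ cpow g m x := by
  induction m generalizing x with
  | zero => exact le_rfl
  | succ m ih => exact conv_mono h ih x

/-- `g ≤ f * g` if `f(0) = 1` -/
theorem le_conv_left {f : V d → ℝ≥0∞} (h0 : 1 ≤ f 0) (g : V d → ℝ≥0∞) (x : V d) :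
    g x ≤ conv f g x := by
  unfold conv
  refine le_trans ?_ (ENNReal.le_tsum (0 : V d))
  rw [sub_zero]
  exact le_mul_of_one_le_left' h0

theorem le_conv_right {f : V d → ℝ≥0∞} (h0 : 1 ≤ f 0) (g : V d → ℝ≥0∞) (x : V d) :
    g x ≤ conv g f x := by
  rw [conv_comm]; exact le_conv_left h0 g x

theorem cpow_le_succ {f : V d → ℝ≥0∞} (h0 : 1 ≤ f 0) (m : ℕ) (x : V d) :
    cpow f m x ≤ cpow f (m + 1) x := le_conv_left h0 _ x

theorem cpow_le_cpow {f : V d → ℝ≥0∞} (h0 : 1 ≤ f 0) {m n : ℕ} (hmn : m ≤ n) (x : V d) :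
    cpow f m x ≤ cpow f n x := by
  induction hmn with
  | refl => exact le_rfl
  | step _ ih => exact ih.trans (cpow_le_succ h0 _ x)

/-! ### norms -/

theorem nrm_conv (f g : V d → ℝ≥0∞) : nrm (conv f g) = nrm f * nrm g := by
  unfold nrm conv
  rw [ENNReal.tsum_comm, ← ENNReal.tsum_mul_right]
  refine tsum_congr fun y => ?_
  rw [ENNReal.tsum_mul_left]
  congr 1
  exact (Equiv.subRight y).tsum_eq g

theorem nrm_dlt : nrm (dlt : V d → ℝ≥0∞) = 1 := by
  unfold nrm
  rw [tsum_eq_single 0 (fun y hy => dlt_of_ne hy), dlt_zero]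

theorem nrm_cpow (f : V d → ℝ≥0∞) (m : ℕ) : nrm (cpow f m) = nrm f ^ m := by
  induction m with
  | zero => rw [cpow_zero, nrm_dlt, pow_zero]
  | succ m ih => rw [cpow_succ, nrm_conv, ih, pow_succ, mul_comm]

theorem nrm_mono {f g : V d → ℝ≥0∞} (h : ∀ x, f x ≤ g x) : nrm f ≤ nrm g :=
  ENNReal.tsum_le_tsum h

theorem nrm_tau (p : ℝ) : nrm (tau (d := d) p) = chi d p := rfl

theorem le_supn (f : V d → ℝ≥0∞) (x : V d) : f x ≤ supn f := le_iSup f x

theorem supn_le {f : V d → ℝ≥0∞} {c : ℝ≥0∞} (h : ∀ x, f x ≤ c) : supn f ≤ c := iSup_le h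

theorem supn_mono {f g : V d → ℝ≥0∞} (h : ∀ x, f x ≤ g x) : supn f ≤ supn g := iSup_mono h

theorem conv_le_nrm_mul_supn (f g : V d → ℝ≥0∞) (x : V d) : conv f g x ≤ nrm f * supn g := by
  unfold conv nrm
  rw [← ENNReal.tsum_mul_right]
  exact ENNReal.tsum_le_tsum fun y => mul_le_mul' le_rfl (le_supn g _)

theorem supn_conv_le (f g : V d → ℝ≥0∞) : supn (conv f g) ≤ nrm f * supn g :=
  supn_le (conv_le_nrm_mul_supn f g)

/-- a sum against a product is bounded by the sup of one factor -/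
theorem tsum_mul_le_supn (f g : V d → ℝ≥0∞) : ∑' x, f x * g x ≤ nrm f * supn g := by
  unfold nrm
  rw [← ENNReal.tsum_mul_right]
  exact ENNReal.tsum_le_tsum fun y => mul_le_mul' le_rfl (le_supn g _)

/-- `(f * g)(0) = Σ f g` for even `g` -/
theorem conv_zero_eq {f g : V d → ℝ≥0∞} (hg : ∀ x, g (-x) = g x) :
    conv f g 0 = ∑' x, f x * g x := by
  unfold conv
  exact tsum_congr fun y => by rw [zero_sub, hg]

theorem tsum_mul_sub {f g : V d → ℝ≥0∞} (hg : ∀ x, g (-x) = g x) (a : V d) :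
    ∑' x, f x * g (x - a) = conv f g a := by
  unfold conv
  exact tsum_congr fun y => by rw [← hg, neg_sub]

/-- AM-GM in `[0,∞]`: `2ab ≤ a² + b²` -/
theorem two_mul_le_sq (a b : ℝ≥0∞) : 2 * (a * b) ≤ a * a + b * b := by
  by_cases ha : a = ⊤
  · subst ha; simp
  by_cases hb : b = ⊤
  · subst hb; simp
  lift a to NNReal using ha
  lift b to NNReal using hb
  norm_cast
  have h := two_mul_le_add_sq (a : ℝ) (b : ℝ)
  have h2 : 2 * ((a : ℝ) * b) ≤ a * a + b * b := by nlinarith
  exact_mod_cast h2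

/-- Cauchy-Schwarz: `(f*f)(x) ≤ (f*f)(0)` for even `f` -/
theorem conv_self_le {f : V d → ℝ≥0∞} (hf : ∀ x, f (-x) = f x) (x : V d) :
    conv f f x ≤ conv f f 0 := by
  rw [conv_zero_eq hf]
  have h1 : 2 * conv f f x ≤ 2 * ∑' y, f y * f y := by
    unfold conv
    rw [← ENNReal.tsum_mul_left]
    calc ∑' y, 2 * (f y * f (x - y)) ≤ ∑' y, (f y * f y + f (x - y) * f (x - y)) :=
          ENNReal.tsum_le_tsum fun y => two_mul_le_sq _ _
      _ = (∑' y, f y * f y) + ∑' y, f (x - y) * f (x - y) := ENNReal.tsum_add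
      _ = 2 * ∑' y, f y * f y := by
          rw [two_mul]
          congr 1
          exact (Equiv.subLeft x).tsum_eq (fun y => f y * f y)
  exact (ENNReal.mul_le_mul_iff_right (by norm_num) (by norm_num)).1 h1

theorem cpow_even_le_zero {f : V d → ℝ≥0∞} (hf : ∀ x, f (-x) = f x) (m : ℕ) (x : V d) :
    cpow f (m + m) x ≤ cpow f (m + m) 0 := by
  rw [cpow_add]
  exact conv_self_le (cpow_even hf m) x

/-! ### the step distribution -/

theorem J_zero_of_ne (p : ℝ) {x : V d} (hx : l1 x ≠ 1) : J p x = 0 := by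
  classical
  simp [J, hx]

theorem J_of_eq (p : ℝ) {x : V d} (hx : l1 x = 1) : J p x = ENNReal.ofReal p := by
  classical
  simp [J, hx]

theorem J_even (p : ℝ) (x : V d) : J p (-x) = J p x := by
  classical
  have : l1 (-x) = l1 x := by
    unfold l1
    exact Finset.sum_congr rfl fun i _ => by rw [Pi.neg_apply, abs_neg]
  simp [J, this]

theorem J_mono {p q : ℝ} (h : p ≤ q) (x : V d) : J p x ≤ J q x := by
  classical
  unfold J
  split_ifs
  · exact ENNReal.ofReal_le_ofReal h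
  · exact le_rfl

theorem conv_J (p : ℝ) (f : V d → ℝ≥0∞) (x : V d) :
    conv (J p) f x = ENNReal.ofReal p * ∑ e ∈ U1 d, f (x - e) := by
  unfold conv
  rw [tsum_eq_sum (s := U1 d) (fun y hy => by
    rw [J_zero_of_ne p (fun h => hy ((mem_U1 y).2 h)), zero_mul]), Finset.mul_sum]
  exact Finset.sum_congr rfl fun e he => by rw [J_of_eq p ((mem_U1 e).1 he)]

theorem neg_mem_U1 {e : V d} : -e ∈ U1 d ↔ e ∈ U1 d := by rw [mem_U1, mem_U1, l1_neg]

theorem sum_U1_neg (f : V d → ℝ≥0∞) : ∑ e ∈ U1 d, f (-e) = ∑ e ∈ U1 d, f e :=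
  Finset.sum_nbij' (fun e => -e) (fun e => -e) (fun _ he => neg_mem_U1.2 he)
    (fun _ he => neg_mem_U1.2 he) (fun e _ => neg_neg e) (fun e _ => neg_neg e)
    (fun _ _ => rfl)

theorem card_U1 : (U1 d).card = 2 * d := by
  classical
  unfold U1
  rw [Finset.card_image_of_injective]
  · simp [mul_comm]
  · rintro ⟨i, a⟩ ⟨j, b⟩ h
    have hi := congrFun h i
    have hij : i = j := by
      by_contra hne
      rcases a <;> rcases b <;> simp [hne] at hi
    subst hij
    rcases a <;> rcases b <;> simp at hi ⊢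

theorem nrm_J (p : ℝ) : nrm (J (d := d) p) = ENNReal.ofReal p * (2 * d : ℕ) := by
  unfold nrm
  rw [tsum_eq_sum (s := U1 d) (fun y hy => J_zero_of_ne p (fun h => hy ((mem_U1 y).2 h))),
    Finset.sum_congr rfl (fun e he => J_of_eq p ((mem_U1 e).1 he)), Finset.sum_const, card_U1,
    nsmul_eq_mul, mul_comm]

theorem sum_over_nbrs (p : ℝ) (u : V d) (f : V d → ℝ≥0∞) :
    ∑' v : V d, J p (v - u) * f v = ENNReal.ofReal p * ∑ e ∈ U1 d, f (u + e) := by
  have h := (Equiv.addRight u).tsum_eq (fun v => J p (v - u) * f v)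
  rw [← h]
  simp only [Equiv.coe_addRight, add_sub_cancel_right]
  rw [tsum_eq_sum (s := U1 d) (fun y hy => by
    rw [J_zero_of_ne p (fun h => hy ((mem_U1 y).2 h)), zero_mul]), Finset.mul_sum]
  exact Finset.sum_congr rfl fun e he => by rw [J_of_eq p ((mem_U1 e).1 he), add_comm e u]

end Pool.Agent.PB
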