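import Pool.Agent.PB.P.Expl
import Pool.Agent.PB.Crit

/-!
PROJECT PB, P/Reroot: mass transport and re-rooting (Section 1.3).
-/

set_option autoImplicit false
open MeasureTheory Filter Topology
open scoped ENNReal BigOperators

namespace Pool.Agent.PB

variable {d : ℕ}

/-- mass transport: `m x y (ω seen from a) = m (x+a) (y+a) ω` -/
theorem mass_transport {m : V d → V d → Om d → ℝ≥0∞}
    (hm : ∀ a x y ω, m x y (act (trI a) ω) = m (x + a) (y + a) ω) :
    ∑' x, ∫⁻ ω, m 0 x ω ∂Pr d = ∑' x, ∫⁻ ω, m x 0 ω ∂Pr d := by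
  rw [← (Equiv.neg (V d)).tsum_eq (fun x => ∫⁻ ω, m x 0 ω ∂Pr d)]
  refine tsum_congr fun x => ?_
  rw [← lintegral_act (trI (-x))]
  refine lintegral_congr fun ω => ?_
  rw [hm]
  simp

theorem mass_transport' {m : V d → V d → Om d → ℝ≥0∞} (hmeas : ∀ x y, Measurable (m x y))
    (hm : ∀ a x y ω, m x y (act (trI a) ω) = m (x + a) (y + a) ω) :
    ∫⁻ ω, ∑' x, m 0 x ω ∂Pr d = ∫⁻ ω, ∑' x, m x 0 ω ∂Pr d := by
  rw [lintegral_tsum fun x => (hmeas 0 x).aemeasurable,
    lintegral_tsum fun x => (hmeas x 0).aemeasurable, mass_transport hm]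

theorem tsum_indicator_one {W : Type*} (S : Set W) (c : ℝ≥0∞) :
    ∑' x, S.indicator (fun _ => c) x = (S.encard : ℝ≥0∞) * c := by
  rw [← tsum_subtype S (fun _ => c), ENNReal.tsum_const]
  rfl

/-- re-rooting: `E Σ_{x ∈ C(0)} F(x) = E [N F(0)]` (all clusters, `N = encard`) -/
theorem reroot (p : ℝ) {F : V d → Om d → ℝ≥0∞} (hF : ∀ x, Measurable (F x))
    (hc : ∀ a x ω, F x (act (trI a) ω) = F (x + a) ω) :
    ∫⁻ ω, ∑' x, (Cl (opn p ω) (0 : V d)).indicator (fun x => F x ω) x ∂Pr d =
      ∫⁻ ω, ((Cl (opn p ω) (0 : V d)).encard : ℝ≥0∞) * F 0 ω ∂Pr d := by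
  let m : V d → V d → Om d → ℝ≥0∞ := fun x y ω =>
    (Cl (opn p ω) x).indicator (fun y => F y ω) y
  have hcl : ∀ (a x : V d) (ω : Om d) (y : V d),
      y ∈ Cl (opn p (act (trI a) ω)) x ↔ y + a ∈ Cl (opn p ω) (x + a) := by
    intro a x ω y
    simp only [mem_Cl, Rch_act (trI_aut a)]
    rfl
  have h1 := mass_transport' (m := m) (fun x y => by
      have hS : MeasurableSet {ω : Om d | y ∈ Cl (opn p ω) x} := (opn_MES p).cl x y
      have h2 : m x y = {ω : Om d | y ∈ Cl (opn p ω) x}.indicator (F y) := by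
        funext ω
        by_cases h : y ∈ Cl (opn p ω) x
        · rw [Set.indicator_of_mem (by exact h)]; simp only [m, Set.indicator_of_mem h]
        · rw [Set.indicator_of_notMem (by exact h)]; simp only [m, Set.indicator_of_notMem h]
      rw [h2]
      exact (hF y).indicator hS)
    (fun a x y ω => by
      by_cases h : y + a ∈ Cl (opn p ω) (x + a)
      · have h' := (hcl a x ω y).2 h
        simp only [m, Set.indicator_of_mem h, Set.indicator_of_mem h', hc]
      · have h' : y ∉ Cl (opn p (act (trI a) ω)) x := fun h2 => h ((hcl a x ω y).1 h2)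
        simp only [m, Set.indicator_of_notMem h, Set.indicator_of_notMem h'])
  refine Eq.trans h1 (lintegral_congr fun ω => ?_)
  rw [← tsum_indicator_one]
  refine tsum_congr fun x => ?_
  by_cases h : x ∈ Cl (opn p ω) (0 : V d)
  · have h' : (0 : V d) ∈ Cl (opn p ω) x := Rch.symm h
    simp only [m, Set.indicator_of_mem h, Set.indicator_of_mem h']
  · have h' : (0 : V d) ∉ Cl (opn p ω) x := fun h2 => h (Rch.symm h2)
    simp only [m, Set.indicator_of_notMem h, Set.indicator_of_notMem h']

theorem Cl_act (p : ℝ) (a : V d) (ω : Om d) (x : V d) :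
    Cl (opn p (act (trI a) ω)) x = (fun y => y + a) ⁻¹' Cl (opn p ω) (x + a) := by
  ext y
  simp only [mem_Cl, Rch_act (trI_aut a), Set.mem_preimage]
  rfl

theorem Cl_act_finite (p : ℝ) (a : V d) (ω : Om d) (x : V d) :
    (Cl (opn p (act (trI a) ω)) x).Finite ↔ (Cl (opn p ω) (x + a)).Finite := by
  rw [Cl_act]
  constructor
  · intro h
    have h2 := h.image (fun y => y + a)
    rwa [Set.image_preimage_eq _ (fun y => ⟨y - a, by simp⟩)] at h2
  · intro h
    exact h.preimage (add_left_injective a).injOn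

/-- re-rooting of finite clusters: `E[Σ_{x ∈ C(0)} F(x); N < ∞] = E [N F(0); N < ∞]` -/
theorem reroot_fin (p : ℝ) {F : V d → Om d → ℝ≥0∞} (hF : ∀ x, Measurable (F x))
    (hc : ∀ a x ω, F x (act (trI a) ω) = F (x + a) ω) :
    ∫⁻ ω in {ω | (Cl (opn p ω) (0 : V d)).Finite},
        ∑' x, (Cl (opn p ω) (0 : V d)).indicator (fun x => F x ω) x ∂Pr d =
      ∫⁻ ω in {ω | (Cl (opn p ω) (0 : V d)).Finite}, (Nc (opn p ω) (0 : V d) : ℝ≥0∞) * F 0 ω
        ∂Pr d := by
  have hfin : ∀ x : V d, MeasurableSet {ω : Om d | (Cl (opn p ω) x).Finite} :=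
    fun x => MVS.finite ((opn_MES p).cl x)
  have h := reroot (d := d) p
    (F := fun x => {ω : Om d | (Cl (opn p ω) x).Finite}.indicator (F x))
    (fun x => (hF x).indicator (hfin x)) (fun a x ω => by
      by_cases h : (Cl (opn p ω) (x + a)).Finite
      · have h2 : act (trI a) ω ∈ {ω : Om d | (Cl (opn p ω) x).Finite} :=
          (Cl_act_finite p a ω x).2 h
        have h3 : ω ∈ {ω : Om d | (Cl (opn p ω) (x + a)).Finite} := h
        rw [Set.indicator_of_mem h2, Set.indicator_of_mem h3, hc]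
      · have h2 : act (trI a) ω ∉ {ω : Om d | (Cl (opn p ω) x).Finite} :=
          fun h2 => h ((Cl_act_finite p a ω x).1 h2)
        have h3 : ω ∉ {ω : Om d | (Cl (opn p ω) (x + a)).Finite} := h
        rw [Set.indicator_of_notMem h2, Set.indicator_of_notMem h3])
  rw [← lintegral_indicator (hfin 0), ← lintegral_indicator (hfin 0)]
  refine Eq.trans (lintegral_congr fun ω => ?_) (h.trans (lintegral_congr fun ω => ?_))
  · by_cases hf : (Cl (opn p ω) (0 : V d)).Finite
    · rw [Set.indicator_of_mem (by exact hf)]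
      refine tsum_congr fun x => ?_
      by_cases hx : x ∈ Cl (opn p ω) (0 : V d)
      · have h2 : (Cl (opn p ω) x).Finite := by rw [Cl_eq_of_mem hx]; exact hf
        rw [Set.indicator_of_mem hx, Set.indicator_of_mem hx, Set.indicator_of_mem (by exact h2)]
      · rw [Set.indicator_of_notMem hx, Set.indicator_of_notMem hx]
    · rw [Set.indicator_of_notMem (by exact hf)]
      symm
      rw [ENNReal.tsum_eq_zero]
      intro x
      by_cases hx : x ∈ Cl (opn p ω) (0 : V d)
      · have h2 : ¬ (Cl (opn p ω) x).Finite := by rw [Cl_eq_of_mem hx]; exact hf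
        rw [Set.indicator_of_mem hx, Set.indicator_of_notMem (by exact h2)]
      · rw [Set.indicator_of_notMem hx]
  · by_cases hf : (Cl (opn p ω) (0 : V d)).Finite
    · rw [Set.indicator_of_mem (by exact hf), Set.indicator_of_mem (by exact hf)]
      congr 1
      rw [← hf.cast_ncard_eq]
      rfl
    · rw [Set.indicator_of_notMem (by exact hf), Set.indicator_of_notMem (by exact hf), mul_zero]

/-- the law of the cluster of `u` -/
theorem Pr_Cl_shift (p : ℝ) (u : V d) (K : Set (V d)) :
    Pr d {ω | Cl (opn p ω) u = K} = Pr d {ω | Cl (opn p ω) (0 : V d) = (fun y => y + u) ⁻¹' K} := by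
  rw [← Pr_act (trI u) {ω | Cl (opn p ω) (0 : V d) = (fun y => y + u) ⁻¹' K}]
  congr 1
  ext ω
  simp only [Set.mem_ofPred_eq, Cl_act, zero_add]
  exact (Set.preimage_injective.2 fun y => ⟨y - u, by simp⟩).eq_iff.symm

/-- N4: re-rooting, sum form -/
theorem reroot_sum (p : ℝ) (F : Finset (V d) → ℝ≥0∞) :
    ∑' K : Finset (V d), Pr d {ω | Cl (opn p ω) (0 : V d) = (K : Set (V d))} *
        ∑ u ∈ K, F (K.image (fun x => x - u)) =
      ∑' K : Finset (V d), Pr d {ω | Cl (opn p ω) (0 : V d) = (K : Set (V d))} *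
        ((K.card : ℝ≥0∞) * F K) := by
  classical
  set a : Finset (V d) → ℝ≥0∞ := fun K => Pr d {ω | Cl (opn p ω) (0 : V d) = (K : Set (V d))}
    with ha
  have ha0 : ∀ K : Finset (V d), (0 : V d) ∉ K → a K = 0 := by
    intro K hK
    have : {ω : Om d | Cl (opn p ω) (0 : V d) = (K : Set (V d))} = ∅ := by
      ext ω
      simp only [Set.mem_ofPred_eq, Set.mem_empty_iff_false, iff_false]
      intro h
      exact hK (by rw [← Finset.mem_coe, ← h]; exact self_mem_Cl _ _)
    simp only [ha, this, measure_empty]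
  let tr : V d → Finset (V d) ≃ Finset (V d) := fun u => Equiv.finsetCongr (Equiv.subRight u)
  have htr : ∀ u K, tr u K = K.image (fun x => x - u) := by
    intro u K
    ext x
    simp only [tr, Equiv.finsetCongr_apply, Finset.mem_map_equiv, Equiv.subRight_symm_apply,
      Finset.mem_image]
    constructor
    · intro h; exact ⟨x + u, h, by simp⟩
    · rintro ⟨y, hy, rfl⟩; simpa using hy
  have hsh : ∀ (K : Finset (V d)) (u : V d), (0 : V d) ∈ K → u ∈ K → a K = a (tr u K) := by
    intro K u h0 hu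
    have h1 : {ω : Om d | Cl (opn p ω) (0 : V d) = (K : Set (V d))} =
        {ω | Cl (opn p ω) u = (K : Set (V d))} := by
      ext ω
      simp only [Set.mem_ofPred_eq]
      constructor
      · intro h
        rw [← h]
        exact Cl_eq_of_mem (by rw [h]; exact hu)
      · intro h
        rw [← h]
        exact Cl_eq_of_mem (by rw [h]; exact h0)
    simp only [ha]
    rw [h1, Pr_Cl_shift]
    congr 1
    have h2 : (fun y => y + u) ⁻¹' (K : Set (V d)) = (tr u K : Set (V d)) := by
      ext y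
      rw [htr]
      simp [sub_eq_iff_eq_add]
    rw [h2]
  have h0tr : ∀ (K : Finset (V d)) (u : V d), (0 : V d) ∈ tr u K ↔ u ∈ K := by
    intro K u
    rw [htr]
    simp [sub_eq_zero]
  have hL : ∀ K : Finset (V d), a K * ∑ u ∈ K, F (K.image (fun x => x - u)) =
      ∑' u : V d, if (0 : V d) ∈ K then a (tr u K) * F (tr u K) else 0 := by
    intro K
    by_cases h0 : (0 : V d) ∈ K
    · rw [Finset.mul_sum, tsum_eq_sum (s := K)]
      · refine Finset.sum_congr rfl fun u hu => ?_
        rw [if_pos h0, ← hsh K u h0 hu, htr]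
      · intro u hu
        rw [if_pos h0, ha0 _ (fun h => hu ((h0tr K u).1 h)), zero_mul]
    · simp only [if_neg h0, ha0 K h0, zero_mul, tsum_zero]
  have hLL : (∑' K : Finset (V d), Pr d {ω | Cl (opn p ω) (0 : V d) = (K : Set (V d))} *
        ∑ u ∈ K, F (K.image (fun x => x - u))) =
      ∑' K : Finset (V d), ∑' u : V d, if (0 : V d) ∈ K then a (tr u K) * F (tr u K) else 0 :=
    tsum_congr hL
  rw [hLL, ENNReal.tsum_comm]
  have h3 : ∀ u : V d, (∑' K : Finset (V d), if (0 : V d) ∈ K then a (tr u K) * F (tr u K) else 0) =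
      ∑' K : Finset (V d), if -u ∈ K then a K * F K else 0 := by
    intro u
    rw [← (tr u).tsum_eq (fun K : Finset (V d) => if -u ∈ K then a K * F K else 0)]
    refine tsum_congr fun K => ?_
    have : (0 : V d) ∈ K ↔ -u ∈ tr u K := by
      rw [htr]
      constructor
      · intro h; exact Finset.mem_image.2 ⟨0, h, by simp⟩
      · intro h
        obtain ⟨x, hx, hx2⟩ := Finset.mem_image.1 h
        have : x = 0 := by
          have := congrArg (fun y => y + u) hx2
          simpa using this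
        exact this ▸ hx
    by_cases h0 : (0 : V d) ∈ K
    · rw [if_pos h0, if_pos (this.1 h0)]
    · rw [if_neg h0, if_neg (fun h => h0 (this.2 h))]
  rw [tsum_congr h3, ENNReal.tsum_comm]
  refine tsum_congr fun K => ?_
  rw [tsum_eq_sum (s := K.image (fun x => -x))]
  · rw [Finset.sum_congr rfl (fun u hu => if_pos (by
      obtain ⟨x, hx, rfl⟩ := Finset.mem_image.1 hu
      simpa using hx)), Finset.sum_const,
      Finset.card_image_of_injective _ neg_injective, nsmul_eq_mul]
    ring
  · intro u hu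
    rw [if_neg]
    intro h
    exact hu (Finset.mem_image.2 ⟨-u, h, by simp⟩)

end Pool.Agent.PB
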