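import Pool.Agent.PB.P.Expl
import Pool.Agent.PB.P.Conv

/-!
PROJECT PB, P/Tau: Section 1.4: `τ ≤ δ + J*τ`, `τ^{*m} ≤ δ + m J*τ^{*m}`, `τ^{*m}(x) ≤ m s_m` (`x ≠ 0`).
-/

set_option autoImplicit false
open MeasureTheory Filter Topology
open scoped ENNReal BigOperators

namespace Pool.Agent.PB

variable {d : ℕ}

/-- first step of a simple path from `x` to `z ≠ x` -/
theorem Rch.first_step {W : Type*} {O : Set (Sym2 W)} {x z : W} (h : Rch O x z) (hne : z ≠ x) :
    ∃ y, y ≠ x ∧ s(x, y) ∈ O ∧ z ∈ ClA (Del.ofSet {x}) O y := by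
  have key : z = x ∨ ∃ y, y ≠ x ∧ s(x, y) ∈ O ∧ z ∈ ClA (Del.ofSet {x}) O y := by
    refine Rch.induct (P := fun z => z = x ∨ ∃ y, y ≠ x ∧ s(x, y) ∈ O ∧
      z ∈ ClA (Del.ofSet {x}) O y) (Or.inl rfl) ?_ h
    intro a b _ hab ha
    by_cases hb : b = x
    · exact Or.inl hb
    · right
      rcases ha with rfl | ⟨y, hy, hxy, hay⟩
      · exact ⟨b, hb, hab, self_mem_ClA (by simpa [Del.ofSet] using hb)⟩
      · exact ⟨y, hy, hxy, ClA_closed hay hab (by simp [Del.ofSet]) (by simpa [Del.ofSet] using hb)⟩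
  exact key.resolve_left hne

theorem Pr_ClA_le (p : ℝ) (A : Del (V d)) (y x : V d) :
    Pr d {ω | x ∈ ClA A (opn p ω) y} ≤ tau p (x - y) := by
  rw [← tau_shift p y x]
  exact measure_mono fun ω hω => ClA_subset_Cl A _ y hω

theorem tau_le (p : ℝ) (x : V d) : tau p x ≤ dlt x + conv (J p) (tau p) x := by
  classical
  by_cases hx : x = 0
  · subst hx
    rw [tau_zero, dlt_zero]
    exact le_self_add
  have hsub : {ω : Om d | Rch (opn p ω) 0 x} ⊆ ⋃ e ∈ U1 d,
      ({ω | s((0 : V d), e) ∈ opn p ω} ∩ {ω | x ∈ ClA (Del.ofSet {(0 : V d)}) (opn p ω) e}) := by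
    intro ω hω
    obtain ⟨y, hy, h0y, hz⟩ := Rch.first_step hω hx
    simp only [Set.mem_iUnion]
    refine ⟨y, ?_, h0y, hz⟩
    have h1 := h0y.1
    rw [SimpleGraph.mem_edgeSet] at h1
    rw [mem_U1]
    have h2 : l1 (y - 0) = 1 := h1
    rwa [sub_zero] at h2
  calc tau p x ≤ Pr d (⋃ e ∈ U1 d, ({ω | s((0 : V d), e) ∈ opn p ω} ∩
        {ω | x ∈ ClA (Del.ofSet {(0 : V d)}) (opn p ω) e})) := measure_mono hsub
    _ ≤ ∑ e ∈ U1 d, Pr d ({ω | s((0 : V d), e) ∈ opn p ω} ∩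
        {ω | x ∈ ClA (Del.ofSet {(0 : V d)}) (opn p ω) e}) := measure_biUnion_finset_le _ _
    _ ≤ ∑ e ∈ U1 d, ENNReal.ofReal p * tau p (x - e) := by
        refine Finset.sum_le_sum fun e he => ?_
        have he1 : s((0 : V d), e) ∈ (lat d).edgeSet := by
          rw [SimpleGraph.mem_edgeSet]
          show l1 (e - 0) = 1
          rw [sub_zero]; exact (mem_U1 e).1 he
        rw [expl (K := {(0 : V d)}) (opn_MES p _) (((opn_MES p).clA _ e) x)
          ((dep_mem_opn p _).mono (by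
            intro i hi
            rw [Set.mem_singleton_iff] at hi
            subst hi
            exact inl_mem_tI.2 (mem_touch_left rfl)))
          (dep_Rch_off p e x {(0 : V d)}), Pr_edge p he1]
        exact mul_le_mul' (ENNReal.ofReal_le_ofReal (min_le_left _ _)) (Pr_ClA_le p _ e x)
    _ = conv (J p) (tau p) x := by rw [conv_J, Finset.mul_sum]
    _ ≤ dlt x + conv (J p) (tau p) x := le_add_self

theorem one_le_tau (p : ℝ) : 1 ≤ tau p (0 : V d) := (tau_zero p).ge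

theorem cpow_tau_even (p : ℝ) (m : ℕ) (x : V d) : cpow (tau p) m (-x) = cpow (tau p) m x :=
  cpow_even (tau_neg p) m x

/-- `τ^{*m} ≤ δ + m J*τ^{*m}` -/
theorem cpow_tau_le (p : ℝ) (m : ℕ) (x : V d) :
    cpow (tau p) m x ≤ dlt x + m * conv (J p) (cpow (tau p) m) x := by
  induction m generalizing x with
  | zero => simp
  | succ m ih =>
    have h1 : cpow (tau p) (m + 1) x ≤ cpow (tau p) m x +
        conv (J p) (cpow (tau p) (m + 1)) x := by
      rw [cpow_succ]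
      refine (conv_mono (tau_le p) (fun _ => le_rfl) x).trans (le_of_eq ?_)
      rw [conv_add_left (f := fun x => dlt x) (g := fun x => conv (J p) (tau p) x)]
      show conv dlt _ x + conv (conv (J p) (tau p)) _ x = _
      rw [dlt_conv, conv_assoc]
    calc cpow (tau p) (m + 1) x ≤ cpow (tau p) m x + conv (J p) (cpow (tau p) (m + 1)) x := h1
      _ ≤ (dlt x + m * conv (J p) (cpow (tau p) m) x) + conv (J p) (cpow (tau p) (m + 1)) x :=
          add_le_add (ih x) le_rfl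
      _ ≤ (dlt x + m * conv (J p) (cpow (tau p) (m + 1)) x) +
            conv (J p) (cpow (tau p) (m + 1)) x := by
          refine add_le_add (add_le_add le_rfl (mul_le_mul' le_rfl ?_)) le_rfl
          exact conv_mono (fun _ => le_rfl) (cpow_le_succ (one_le_tau p) m) x
      _ = dlt x + ((m + 1 : ℕ) : ℝ≥0∞) * conv (J p) (cpow (tau p) (m + 1)) x := by
          push_cast
          ring

theorem cpow_tau_le_sm (p : ℝ) (m : ℕ) {x : V d} (hx : x ≠ 0) :
    cpow (tau p) m x ≤ m * sm d p m := by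
  refine (cpow_tau_le p m x).trans ?_
  rw [dlt_of_ne hx, zero_add]
  exact mul_le_mul' le_rfl (le_supn _ x)

theorem tau_le_cpow (p : ℝ) {m : ℕ} (hm : 1 ≤ m) (x : V d) : tau p x ≤ cpow (tau p) m x := by
  have := cpow_le_cpow (one_le_tau (d := d) p) hm x
  rwa [cpow_one] at this

theorem sm_mono_m (p : ℝ) {m n : ℕ} (h : m ≤ n) : sm d p m ≤ sm d p n :=
  supn_mono (conv_mono (fun _ => le_rfl) (cpow_le_cpow (one_le_tau p) h))

theorem sm_mono {p q : ℝ} (h : p ≤ q) (m : ℕ) : sm d p m ≤ sm d q m :=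
  supn_mono (conv_mono (J_mono h) (cpow_mono (tau_mono h) m))

theorem Bm_mono {p q : ℝ} (h : p ≤ q) (m : ℕ) : Bm d p m ≤ Bm d q m :=
  cpow_mono (tau_mono h) m 0

theorem Bm_mono_m (p : ℝ) {m n : ℕ} (h : m ≤ n) : Bm d p m ≤ Bm d p n :=
  cpow_le_cpow (one_le_tau p) h 0

theorem one_le_Bm (p : ℝ) (m : ℕ) : 1 ≤ Bm d p m := by
  have h := Bm_mono_m (d := d) p (Nat.zero_le m)
  rwa [Bm, cpow_zero, dlt_zero] at h

/-- `τ^{*(m+m)}(x) ≤ B_{m+m}` -/
theorem cpow_tau_le_Bm (p : ℝ) (m : ℕ) (x : V d) :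
    cpow (tau p) (m + m) x ≤ Bm d p (m + m) := cpow_even_le_zero (tau_neg p) m x

end Pool.Agent.PB
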