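import Pool.Agent.PB.P.BKw
import Pool.Agent.PB.P.Tau

/-!
PROJECT PB, P/Tree: tree bounds (Sections 1.5, 1.6).

* `split_at`: a connection avoiding or splitting at a vertex set;
* `exists_tripod`: `y ↔ x`, `y ↔ g` gives `w` and edge-disjoint `y..w`, `w..x`, `w..g`;
* `tree_bound` (N5 = 1.5), `ghost_remove` (N6 = 1.6), `conn_remove` (the same for connections).
-/

set_option autoImplicit false
open MeasureTheory Filter Topology
open scoped ENNReal BigOperators

namespace Pool.Agent.PB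

section det

variable {W : Type*} {O : Set (Sym2 W)}

/-- a simple path as data: its vertex set `P`, the edges all inside `P`, and it splits at each of its
vertices into two edge-disjoint connections -/
theorem exists_path_set {x y : W} (h : Rch O x y) : ∃ (P : Set W) (S : Set (Sym2 W)),
    P.Finite ∧ S.Finite ∧ x ∈ P ∧ y ∈ P ∧ S ⊆ O ∧ (∀ e ∈ S, ∀ z ∈ e, z ∈ P) ∧ Rch S x y ∧
      ∀ w ∈ P, ∃ S₁ S₂ : Set (Sym2 W), S₁ ⊆ S ∧ S₂ ⊆ S ∧ Disjoint S₁ S₂ ∧ Rch S₁ x w ∧ Rch S₂ w y := by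
  classical
  have h1 := rch_iff_reachable.1 h
  obtain ⟨p, hp⟩ := h1.exists_isPath
  have hE : ∀ e ∈ p.edges, e ∈ O := by
    intro e he
    have := p.edges_subset_edgeSet he
    rw [SimpleGraph.edgeSet_fromEdgeSet] at this
    exact this.1
  have hw : ∀ {a b : W} (q : (SimpleGraph.fromEdgeSet O).Walk a b), Rch {e | e ∈ q.edges} a b := by
    intro a b q
    induction q with
    | nil => exact Rch.refl _ _
    | cons hadj q ih =>
      refine Rch.head (y := _) ?_ (Rch.mono ?_ ih)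
      · simp
      · intro e he
        simp only [Set.mem_ofPred_eq, SimpleGraph.Walk.edges_cons, List.mem_cons] at he ⊢
        exact Or.inr he
  refine ⟨{v | v ∈ p.support}, {e | e ∈ p.edges}, List.finite_toSet _, List.finite_toSet _,
    p.start_mem_support, p.end_mem_support, hE, ?_, hw p, ?_⟩
  · intro e he z hz
    exact p.mem_support_of_mem_edges he hz
  · intro w hwP
    have hwP' : w ∈ p.support := hwP
    refine ⟨{e | e ∈ (p.takeUntil w hwP').edges}, {e | e ∈ (p.dropUntil w hwP').edges},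
      fun e he => p.edges_takeUntil_subset_edges hwP' he, fun e he => p.edges_dropUntil_subset_edges hwP' he,
      ?_, hw _, hw _⟩
    have hnd := hp.isTrail.edges_nodup
    rw [← p.take_spec hwP', SimpleGraph.Walk.edges_append, List.nodup_append'] at hnd
    rw [Set.disjoint_left]
    intro e h1 h2
    exact hnd.2.2 h1 h2

/-- `y ↔ x` and `y ↔ g`: edge-disjoint tripod -/
theorem exists_tripod {x y g : W} (hx : Rch O y x) (hg : Rch O y g) :
    ∃ w, DisjConn O ![(w, g), (y, w), (w, x)] := by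
  obtain ⟨P, S, hPf, hSf, hyP, hxP, hSO, hSP, hS, hsplit⟩ := exists_path_set hx
  have h3 : ∃ w ∈ P, ∃ S₃ : Set (Sym2 W), S₃ ⊆ O ∧ Disjoint S₃ S ∧ Rch S₃ w g := by
    by_cases hgP : g ∈ P
    · exact ⟨g, hgP, ∅, Set.empty_subset _, Set.empty_disjoint _, Rch.refl _ _⟩
    · obtain ⟨a, b, ha, hb, hab, hr⟩ := Rch.exists_first_cross (O := O) Pᶜ (x := g) (y := y) hgP
        (by simpa using hyP) (Rch.symm hg)
      have hb' : b ∈ P := by simpa using hb
      refine ⟨b, hb', insert s(a, b) {e ∈ O | ∀ z ∈ e, z ∈ Pᶜ}, ?_, ?_, ?_⟩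
      · exact Set.insert_subset hab fun e he => he.1
      · rw [Set.disjoint_left]
        rintro e (rfl | he) heS
        · exact ha (hSP _ heS a (Sym2.mem_mk_left a b))
        · induction e using Sym2.ind with
          | _ u v => exact he.2 u (Sym2.mem_mk_left u v) (hSP _ heS u (Sym2.mem_mk_left u v))
      · refine Rch.head (y := a) ?_ (Rch.mono (Set.subset_insert _ _) (Rch.symm hr))
        rw [Sym2.eq_swap]
        exact Set.mem_insert _ _
  obtain ⟨w, hwP, S₃, h3O, h3S, h3g⟩ := h3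
  obtain ⟨S₁, S₂, h1, h2, h12, hr1, hr2⟩ := hsplit w hwP
  refine ⟨w, ![S₃, S₁, S₂], ?_, ?_, ?_⟩
  · intro j
    fin_cases j
    · exact h3O
    · exact h1.trans hSO
    · exact h2.trans hSO
  · intro i j hij
    fin_cases i <;> fin_cases j
    · exact absurd rfl hij
    · exact h3S.mono_right h1
    · exact h3S.mono_right h2
    · exact (h3S.mono_right h1).symm
    · exact absurd rfl hij
    · exact h12
    · exact (h3S.mono_right h2).symm
    · exact h12.symm
    · exact absurd rfl hij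
  · intro j
    fin_cases j
    · exact h3g
    · exact hr1
    · exact hr2

/-- a connection either avoids `X` or splits at a vertex of `X` into edge-disjoint connections -/
theorem split_at {x y : W} (A : Del W) (X : Set W) (h : y ∈ ClA A O x)
    (hX : y ∉ ClA ⟨A.S ∪ X, A.F⟩ O x) : ∃ z ∈ X, DisjConn (A.rem O) ![(z, y), (x, z)] := by
  obtain ⟨P, S, hPf, hSf, hyP, hxP, hSO, hSP, hS, hsplit⟩ := exists_path_set h.2
  by_cases hz : ∃ z ∈ P, z ∈ X
  · obtain ⟨z, hzP, hzX⟩ := hz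
    obtain ⟨S₁, S₂, h1, h2, h12, hr1, hr2⟩ := hsplit z hzP
    refine ⟨z, hzX, ![S₂, S₁], ?_, ?_, ?_⟩
    · intro j
      fin_cases j
      · exact h2.trans hSO
      · exact h1.trans hSO
    · intro i j hij
      fin_cases i <;> fin_cases j
      · exact absurd rfl hij
      · exact h12.symm
      · exact h12
      · exact absurd rfl hij
    · intro j
      fin_cases j
      · exact hr2
      · exact hr1
  · exfalso
    push Not at hz
    apply hX
    refine ⟨fun hx => ?_, Rch.mono (fun e he => ?_) hS⟩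
    · rcases hx with hx | hx
      · exact h.1 hx
      · exact hz x hyP hx
    · refine ⟨(hSO he).1, (hSO he).2.1, fun v hv => ?_⟩
      rintro (hv' | hv')
      · exact (hSO he).2.2 v hv hv'
      · exact hz v (hSP e he v hv) hv'

end det

variable {d : ℕ}

/-- N5 = 1.5: `P(y ↔ x, y → G_h off A) ≤ (τ*τ)(x-y) M(p,h)` -/
theorem tree_bound (p h : ℝ) (b : Bool) (A : Del (V d)) (y x : V d) :
    Pr d {ω | x ∈ ClA A (opn p ω) y ∧ RchA A (opn p ω) y (ghost b h ω)} ≤
      conv (tau p) (tau p) (x - y) * Mg d p h := by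
  have hsub : {ω : Om d | x ∈ ClA A (opn p ω) y ∧ RchA A (opn p ω) y (ghost b h ω)} ⊆
      ⋃ w : V d, {ω | ∃ g ∈ ghost b h ω,
        DisjConn (A.rem (opn p ω)) (Matrix.vecCons (w, g) ![(y, w), (w, x)])} := by
    rintro ω ⟨hx, g, hg, hyg⟩
    obtain ⟨w, hw⟩ := exists_tripod hx.2 hyg.2
    exact Set.mem_iUnion.2 ⟨w, g, hg, hw⟩
  calc _ ≤ ∑' w : V d, Pr d {ω | ∃ g ∈ ghost b h ω,
        DisjConn (A.rem (opn p ω)) (Matrix.vecCons (w, g) ![(y, w), (w, x)])} :=
        (measure_mono hsub).trans (measure_iUnion_le _)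
    _ ≤ ∑' w : V d, Mg d p h * (tau p (w - y) * tau p (x - w)) := by
        refine ENNReal.tsum_le_tsum fun w => ?_
        refine (Pr_conn_ghost_le p h b A w ![(y, w), (w, x)]).trans (le_of_eq ?_)
        rw [Fin.prod_univ_two]
        rfl
    _ = conv (tau p) (tau p) (x - y) * Mg d p h := by
        rw [ENNReal.tsum_mul_left, mul_comm]
        congr 1
        unfold conv
        rw [← (Equiv.subRight y).tsum_eq (fun w => tau p w * tau p (x - y - w))]
        refine tsum_congr fun w => ?_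
        simp only [Equiv.subRight_apply]
        rw [sub_sub_sub_cancel_right]

/-- the same for the whole cluster: `P(y ↔ x, y → G_h) ≤ (τ*τ)(x-y) M(p,h)` -/
theorem tree_bound' (p h : ℝ) (b : Bool) (y x : V d) :
    Pr d {ω | Rch (opn p ω) y x ∧ RchT (opn p ω) y (ghost b h ω)} ≤
      conv (tau p) (tau p) (x - y) * Mg d p h := by
  refine le_trans (measure_mono ?_) (tree_bound p h b (Del.ofSet ∅) y x)
  have hrem : ∀ O : Set (Sym2 (V d)), (Del.ofSet (∅ : Set (V d))).rem O = O := by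
    intro O; ext e; simp [Del.rem, Del.ofSet]
  rintro ω ⟨h1, g, hg, h2⟩
  refine ⟨⟨by simp [Del.ofSet], ?_⟩, g, hg, ⟨by simp [Del.ofSet], ?_⟩⟩
  · rw [hrem]; exact h1
  · rw [hrem]; exact h2

/-- three points: `P(y ↔ x, y ↔ z) ≤ Σ_w τ(w-y) τ(x-w) τ(z-w)` -/
theorem tree_bound3 (p : ℝ) (A : Del (V d)) (y x z : V d) :
    Pr d {ω | x ∈ ClA A (opn p ω) y ∧ z ∈ ClA A (opn p ω) y} ≤
      ∑' w, tau p (w - y) * (tau p (x - w) * tau p (z - w)) := by
  have hsub : {ω : Om d | x ∈ ClA A (opn p ω) y ∧ z ∈ ClA A (opn p ω) y} ⊆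
      ⋃ w : V d, {ω | DisjConn (A.rem (opn p ω)) ![(w, z), (y, w), (w, x)]} := by
    rintro ω ⟨hx, hz⟩
    obtain ⟨w, hw⟩ := exists_tripod hx.2 hz.2
    exact Set.mem_iUnion.2 ⟨w, hw⟩
  refine (measure_mono hsub).trans ((measure_iUnion_le _).trans ?_)
  refine ENNReal.tsum_le_tsum fun w => ?_
  refine (Pr_disjConn_le p A ![(w, z), (y, w), (w, x)]).trans (le_of_eq ?_)
  rw [Fin.prod_univ_three]
  simp only [Matrix.cons_val_zero, Matrix.cons_val_one, Matrix.cons_val_two, Matrix.head_cons,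
    Matrix.tail_cons]
  ring

/-- N6 = 1.6: `P(y → G off A) ≤ P(y → G off A ∪ X) + Σ_{z ∈ X} τ(z-y) M` -/
theorem ghost_remove (p h : ℝ) (b : Bool) (A : Del (V d)) (X : Set (V d)) (y : V d) :
    Pr d {ω | RchA A (opn p ω) y (ghost b h ω)} ≤
      Pr d {ω | RchA ⟨A.S ∪ X, A.F⟩ (opn p ω) y (ghost b h ω)} +
        sumA X (fun z => tau p (z - y)) * Mg d p h := by
  have hsub : {ω : Om d | RchA A (opn p ω) y (ghost b h ω)} ⊆
      {ω | RchA ⟨A.S ∪ X, A.F⟩ (opn p ω) y (ghost b h ω)} ∪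
      ⋃ z : X, {ω | ∃ g ∈ ghost b h ω,
        DisjConn (A.rem (opn p ω)) (Matrix.vecCons ((z : V d), g) ![(y, (z : V d))])} := by
    rintro ω ⟨g, hg, hyg⟩
    by_cases h1 : g ∈ ClA ⟨A.S ∪ X, A.F⟩ (opn p ω) y
    · exact Or.inl ⟨g, hg, h1⟩
    · obtain ⟨z, hz, hd⟩ := split_at A X hyg h1
      exact Or.inr (Set.mem_iUnion.2 ⟨⟨z, hz⟩, g, hg, hd⟩)
  calc _ ≤ Pr d {ω | RchA ⟨A.S ∪ X, A.F⟩ (opn p ω) y (ghost b h ω)} +
        ∑' z : X, Pr d {ω | ∃ g ∈ ghost b h ω,
          DisjConn (A.rem (opn p ω)) (Matrix.vecCons ((z : V d), g) ![(y, (z : V d))])} :=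
        (measure_mono hsub).trans ((measure_union_le _ _).trans
          (add_le_add le_rfl (measure_iUnion_le _)))
    _ ≤ _ := by
        refine add_le_add le_rfl ?_
        unfold sumA
        rw [← ENNReal.tsum_mul_right]
        refine ENNReal.tsum_le_tsum fun z => ?_
        refine (Pr_conn_ghost_le p h b A (z : V d) ![(y, (z : V d))]).trans (le_of_eq ?_)
        rw [Fin.prod_univ_one, mul_comm]
        rfl

/-- `M(h) ≤ P(y → G off X) + M(h) Σ_{z ∈ X} τ(z-y)` -/
theorem ghost_remove' (p h : ℝ) (b : Bool) (X : Set (V d)) (y : V d) :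
    Mg d p h ≤ Pr d {ω | RchA (Del.ofSet X) (opn p ω) y (ghost b h ω)} +
        sumA X (fun z => tau p (z - y)) * Mg d p h := by
  have h1 := ghost_remove p h b (Del.ofSet ∅) X y
  have h2 : (⟨(Del.ofSet (∅ : Set (V d))).S ∪ X, (Del.ofSet (∅ : Set (V d))).F⟩ : Del (V d)) =
      Del.ofSet X := by simp [Del.ofSet]
  have hrem : ∀ O : Set (Sym2 (V d)), (Del.ofSet (∅ : Set (V d))).rem O = O := by
    intro O; ext e; simp [Del.rem, Del.ofSet]
  have h3 : {ω : Om d | RchA (Del.ofSet ∅) (opn p ω) y (ghost b h ω)} =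
      {ω | RchT (opn p ω) y (ghost b h ω)} := by
    ext ω
    simp only [Set.mem_ofPred_eq, RchA, RchT, mem_ClA, hrem]
    simp [Del.ofSet]
  rw [h2, h3, Pr_ghost_type] at h1
  exact h1

/-- the same for connections: `P(x ∈ C_A(y)) ≤ P(x ∈ C_{A ∪ X}(y)) + Σ_{z ∈ X} τ(z-y) τ(x-z)` -/
theorem conn_remove (p : ℝ) (A : Del (V d)) (X : Set (V d)) (y x : V d) :
    Pr d {ω | x ∈ ClA A (opn p ω) y} ≤ Pr d {ω | x ∈ ClA ⟨A.S ∪ X, A.F⟩ (opn p ω) y} +
      sumA X (fun z => tau p (z - y) * tau p (x - z)) := by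
  have hsub : {ω : Om d | x ∈ ClA A (opn p ω) y} ⊆
      {ω | x ∈ ClA ⟨A.S ∪ X, A.F⟩ (opn p ω) y} ∪
      ⋃ z : X, {ω | DisjConn (A.rem (opn p ω)) ![((z : V d), x), (y, (z : V d))]} := by
    intro ω hyg
    by_cases h1 : x ∈ ClA ⟨A.S ∪ X, A.F⟩ (opn p ω) y
    · exact Or.inl h1
    · obtain ⟨z, hz, hd⟩ := split_at A X hyg h1
      exact Or.inr (Set.mem_iUnion.2 ⟨⟨z, hz⟩, hd⟩)
  refine (measure_mono hsub).trans ((measure_union_le _ _).trans
    (add_le_add le_rfl ((measure_iUnion_le _).trans ?_)))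
  unfold sumA
  refine ENNReal.tsum_le_tsum fun z => ?_
  refine (Pr_disjConn_le p A ![((z : V d), x), (y, (z : V d))]).trans (le_of_eq ?_)
  rw [Fin.prod_univ_two, mul_comm]
  rfl

end Pool.Agent.PB
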