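import Pool.Agent.PB.P.Act

/-!
PROJECT PB, P/Loc: locality of clusters (deterministic part of Section 1.2), and `DependsOn`
statements.

`K` is any set of vertices; `touch K` = edges touching `K`; `tI K` = labels of edges touching `K` and
ghost labels in `K`.
-/

set_option autoImplicit false
open MeasureTheory Filter Topology
open scoped ENNReal BigOperators

namespace Pool.Agent.PB

/-! ### Deterministic statements -/

section det

variable {W : Type*} {O O' : Set (Sym2 W)} {K : Set W} {x y z : W}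

theorem mem_touch_left {a b : W} (h : a ∈ K) : s(a, b) ∈ touch K :=
  ⟨a, Sym2.mem_mk_left a b, h⟩

theorem mem_touch_right {a b : W} (h : b ∈ K) : s(a, b) ∈ touch K :=
  ⟨b, Sym2.mem_mk_right a b, h⟩

theorem mem_touch_iff {a b : W} : s(a, b) ∈ touch K ↔ a ∈ K ∨ b ∈ K := by
  simp [touch, Sym2.mem_iff]

/-- connections from a closed set `K` only use edges touching `K` -/
theorem Rch_touch (hK : ∀ a ∈ K, ∀ b, s(a, b) ∈ O → b ∈ K) (hx : x ∈ K) (h : Rch O x z) :
    z ∈ K ∧ Rch (O ∩ touch K) x z := by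
  induction h with
  | refl => exact ⟨hx, Rch.refl _ _⟩
  | tail _ h2 ih =>
    exact ⟨hK _ ih.1 _ h2, ih.2.tail ⟨h2, mem_touch_left ih.1⟩⟩

/-- exploration: the event `C(O,y) = K` depends on the edges touching `K` -/
theorem Cl_eq_iff_touch : Cl O y = K ↔ Cl (O ∩ touch K) y = K := by
  constructor
  · intro h
    ext z
    constructor
    · intro hz
      rw [← h]; exact Rch.mono Set.inter_subset_left hz
    · intro hz
      have hy : y ∈ K := by rw [← h]; exact Rch.refl _ _
      have hc : ∀ a ∈ K, ∀ b, s(a, b) ∈ O → b ∈ K := by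
        intro a ha b hab
        rw [← h] at ha ⊢
        exact Cl_closed ha hab
      rw [← h] at hz
      exact (Rch_touch hc hy hz).2
  · intro h
    have hy : y ∈ K := by rw [← h]; exact Rch.refl _ _
    have hc : ∀ a ∈ K, ∀ b, s(a, b) ∈ O → b ∈ K := by
      intro a ha b hab
      have h2 : s(a, b) ∈ O ∩ touch K := ⟨hab, mem_touch_left ha⟩
      rw [← h] at ha ⊢
      exact Cl_closed ha h2
    ext z
    constructor
    · intro hz
      exact (Rch_touch hc hy hz).1
    · intro hz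
      rw [← h] at hz
      exact Rch.mono Set.inter_subset_left hz

theorem Cl_eq_congr (h : O ∩ touch K = O' ∩ touch K) : Cl O y = K ↔ Cl O' y = K := by
  rw [Cl_eq_iff_touch, h, ← Cl_eq_iff_touch]

theorem rem_inter (A : Del W) (T : Set (Sym2 W)) : A.rem (O ∩ T) = A.rem O ∩ T := by
  ext e; simp only [Del.rem, Set.mem_ofPred_eq, Set.mem_inter_iff]; tauto

theorem ClA_eq_iff_touch {A : Del W} : ClA A O y = K ↔ ClA A (O ∩ touch K) y = K := by
  by_cases hy : y ∈ A.S
  · have h1 : ∀ O : Set (Sym2 W), ClA A O y = ∅ := by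
      intro O; ext x; simp [ClA, hy]
    rw [h1, h1]
  · have h1 : ∀ O : Set (Sym2 W), ClA A O y = Cl (A.rem O) y := by
      intro O; ext x; simp [ClA, Cl, hy]
    rw [h1, h1, rem_inter, ← Cl_eq_iff_touch]

theorem ClA_eq_congr {A : Del W} (h : O ∩ touch K = O' ∩ touch K) :
    ClA A O y = K ↔ ClA A O' y = K := by
  rw [ClA_eq_iff_touch, h, ← ClA_eq_iff_touch]

theorem del1_inter (e : Sym2 W) (T : Set (Sym2 W)) : del1 (O ∩ T) e = del1 O e ∩ T := by
  ext f; simp only [del1, Set.mem_sdiff, Set.mem_inter_iff]; tauto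

/-- on `C(O,y) = K`: connections from `K` in a subset of `O` only use edges touching `K` -/
theorem Rch_sub_touch (h : Cl O y = K) (hO : O' ⊆ O) (hx : x ∈ K) :
    Rch O' x z ↔ Rch (O' ∩ touch K) x z := by
  refine ⟨fun hz => (Rch_touch ?_ hx hz).2, Rch.mono Set.inter_subset_left⟩
  intro a ha b hab
  rw [← h] at ha ⊢
  exact Cl_closed ha (hO hab)

/-- deletion of a vertex set = deletion of the edges touching it -/
theorem rem_ofSet : (Del.ofSet K).rem O = O \ touch K := by
  ext e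
  simp only [Del.rem, Del.ofSet, Set.mem_ofPred_eq, touch, Set.mem_sdiff, Set.mem_empty_iff_false,
    not_false_eq_true, true_and, not_exists, not_and]

theorem rem_ofSet_inter {T : Set (Sym2 W)} (hT : ∀ e ∉ T, e ∈ touch K) :
    (Del.ofSet K).rem (O ∩ T) = (Del.ofSet K).rem O := by
  rw [rem_ofSet, rem_ofSet]
  ext e
  simp only [Set.mem_sdiff, Set.mem_inter_iff]
  constructor
  · exact fun h => ⟨h.1.1, h.2⟩
  · exact fun h => ⟨⟨h.1, by by_contra h'; exact h.2 (hT e h')⟩, h.2⟩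

/-- the cluster of `v ∉ K` off `K` does not meet `K` -/
theorem ClA_ofSet_disjoint (v : W) : Disjoint (ClA (Del.ofSet K) O v) K := by
  rw [Set.disjoint_left]
  rintro a ⟨hv, ha⟩ haK
  have hc : ∀ a ∈ Kᶜ, ∀ b, s(a, b) ∈ (Del.ofSet K).rem O → b ∈ Kᶜ := by
    intro a _ b hab hb
    rw [rem_ofSet] at hab
    exact hab.2 (mem_touch_right hb)
  exact (Rch_touch hc (by simpa [Del.ofSet] using hv) ha).1 haK

/-- connections off `K` in terms of the edges not touching `K` and the target outside `K` -/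
theorem RchA_ofSet_iff (v : W) (T : Set W) :
    RchA (Del.ofSet K) O v T ↔ RchA (Del.ofSet K) (O \ touch K) v (T \ K) := by
  have h1 : (Del.ofSet K).rem (O \ touch K) = (Del.ofSet K).rem O := by
    rw [rem_ofSet, rem_ofSet, Set.sdiff_sdiff, Set.union_self]
  have h2 : ClA (Del.ofSet K) (O \ touch K) v = ClA (Del.ofSet K) O v := by
    unfold ClA; rw [h1]
  unfold RchA
  rw [h2]
  constructor
  · rintro ⟨t, ht, h⟩
    exact ⟨t, ⟨ht, fun hK => Set.disjoint_left.1 (ClA_ofSet_disjoint v) h hK⟩, h⟩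
  · rintro ⟨t, ht, h⟩
    exact ⟨t, ht.1, h⟩

end det

/-! ### Dependence on labels -/

variable {d : ℕ}

/-- labels of edges touching `K`, ghosts in `K` -/
def tI (K : Set (V d)) : Set (Ix d) := {i | (∃ e ∈ touch K, i = Sum.inl e) ∨ ∃ v ∈ K, ∃ b, i = Sum.inr (v, b)}

theorem inl_mem_tI {K : Set (V d)} {e : Sym2 (V d)} : Sum.inl e ∈ tI K ↔ e ∈ touch K := by
  simp [tI]

theorem inr_mem_tI {K : Set (V d)} {v : V d} {b : Bool} : Sum.inr (v, b) ∈ tI K ↔ v ∈ K := by
  simp only [tI, Set.mem_ofPred_eq]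
  constructor
  · rintro (⟨e, _, h⟩ | ⟨w, hw, c, h⟩)
    · cases h
    · obtain ⟨rfl, rfl⟩ := Prod.mk.inj (Sum.inr_injective h)
      exact hw
  · intro h
    exact Or.inr ⟨v, h, b, rfl⟩

/-- open edges in `T` depend on the labels in `T` -/
theorem dep_opn (p : ℝ) (T : Set (Sym2 (V d))) {S : Set (Ix d)} (hS : ∀ e ∈ T, Sum.inl e ∈ S) :
    DependsOn (fun ω : Om d => opn p ω ∩ T) S := by
  intro ω ω' h
  ext e
  simp only [Set.mem_inter_iff, opn, Set.mem_ofPred_eq]
  constructor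
  · rintro ⟨⟨h1, h2⟩, h3⟩; exact ⟨⟨h1, by rw [← h _ (hS e h3)]; exact h2⟩, h3⟩
  · rintro ⟨⟨h1, h2⟩, h3⟩; exact ⟨⟨h1, by rw [h _ (hS e h3)]; exact h2⟩, h3⟩

theorem dep_ghost (b : Bool) (h : ℝ) (T : Set (V d)) {S : Set (Ix d)}
    (hS : ∀ v ∈ T, Sum.inr (v, b) ∈ S) : DependsOn (fun ω : Om d => ghost b h ω ∩ T) S := by
  intro ω ω' h
  ext e
  simp only [Set.mem_inter_iff, ghost, Set.mem_ofPred_eq]
  constructor
  · rintro ⟨h2, h3⟩; exact ⟨by rw [← h _ (hS e h3)]; exact h2, h3⟩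
  · rintro ⟨h2, h3⟩; exact ⟨by rw [h _ (hS e h3)]; exact h2, h3⟩

theorem dep_comp {ι α β γ : Type*} {S : Set ι} {f : (ι → α) → β}
    (hf : DependsOn f S) (g : β → γ) : DependsOn (fun ω => g (f ω)) S :=
  fun _ _ h => congrArg g (hf h)

theorem dep_pair {ι α β γ : Type*} {S : Set ι} {f : (ι → α) → β} {g : (ι → α) → γ}
    (hf : DependsOn f S) (hg : DependsOn g S) : DependsOn (fun ω => (f ω, g ω)) S :=
  fun _ _ h => Prod.ext (hf h) (hg h)

/-- the exploration event -/
theorem dep_ClA_eq (p : ℝ) (A : Del (V d)) (y : V d) (K : Set (V d)) :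
    DependsOn (fun ω : Om d => ClA A (opn p ω) y = K) (tI K) := by
  have h := dep_comp (dep_opn (d := d) p (touch K) (S := tI K) fun e he => inl_mem_tI.2 he)
    (fun O => ClA A O y = K)
  refine fun ω ω' hω => ?_
  have := h hω
  simp only [eq_iff_iff] at this ⊢
  rw [ClA_eq_iff_touch, this, ← ClA_eq_iff_touch]

theorem dep_Cl_eq (p : ℝ) (y : V d) (K : Set (V d)) :
    DependsOn (fun ω : Om d => Cl (opn p ω) y = K) (tI K) := by
  have h := dep_comp (dep_opn (d := d) p (touch K) (S := tI K) fun e he => inl_mem_tI.2 he)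
    (fun O => Cl O y = K)
  refine fun ω ω' hω => ?_
  have := h hω
  simp only [eq_iff_iff] at this ⊢
  rw [Cl_eq_iff_touch, this, ← Cl_eq_iff_touch]

theorem dep_Cl_del1_eq (p : ℝ) (e : Sym2 (V d)) (y : V d) (K : Set (V d)) :
    DependsOn (fun ω : Om d => Cl (del1 (opn p ω) e) y = K) (tI K \ {Sum.inl e}) := by
  have h := dep_comp (dep_opn (d := d) p (touch K \ {e}) (S := tI K \ {Sum.inl e}) fun f hf =>
    ⟨inl_mem_tI.2 hf.1, fun h => hf.2 (Sum.inl_injective h)⟩) (fun O => Cl O y = K)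
  have h1 : ∀ O : Set (Sym2 (V d)), Cl (del1 O e) y = K ↔ Cl (O ∩ (touch K \ {e})) y = K := by
    intro O
    rw [Cl_eq_iff_touch]
    have : del1 O e ∩ touch K = O ∩ (touch K \ {e}) := by
      ext f; simp only [del1, Set.mem_inter_iff, Set.mem_sdiff]; tauto
    rw [this]
  refine fun ω ω' hω => ?_
  have := h hω
  simp only [eq_iff_iff] at this ⊢
  rw [h1, this, ← h1]

/-- connection off `K` to the ghost: depends on the labels not in `tI K` -/
theorem dep_RchA_ghost (p h : ℝ) (b : Bool) (v : V d) (K : Set (V d)) :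
    DependsOn (fun ω : Om d => RchA (Del.ofSet K) (opn p ω) v (ghost b h ω)) (tI K)ᶜ := by
  have h1 := dep_pair (dep_opn (d := d) p (touch K)ᶜ (S := (tI K)ᶜ) fun e he h => he (inl_mem_tI.1 h))
    (dep_ghost (d := d) b h Kᶜ (S := (tI K)ᶜ) fun e he h => he (inr_mem_tI.1 h))
  have h2 := dep_comp h1 (fun q => RchA (Del.ofSet K) q.1 v q.2)
  refine fun ω ω' hω => ?_
  have := h2 hω
  simp only [eq_iff_iff] at this ⊢
  rw [RchA_ofSet_iff, RchA_ofSet_iff (O := opn p ω')]
  exact this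

/-- connection off `K`: depends on the labels not in `tI K` -/
theorem dep_Rch_off (p : ℝ) (v x : V d) (K : Set (V d)) :
    DependsOn (fun ω : Om d => x ∈ ClA (Del.ofSet K) (opn p ω) v) (tI K)ᶜ := by
  have h1 := dep_comp (dep_opn (d := d) p (touch K)ᶜ (S := (tI K)ᶜ)
    fun e he h => he (inl_mem_tI.1 h)) (fun O => x ∈ ClA (Del.ofSet K) O v)
  have h2 : ∀ O : Set (Sym2 (V d)), ClA (Del.ofSet K) (O ∩ (touch K)ᶜ) v = ClA (Del.ofSet K) O v := by
    intro O
    unfold ClA
    rw [rem_ofSet_inter (K := K) (T := (touch K)ᶜ) (fun e he => by simpa using he)]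
  refine fun ω ω' hω => ?_
  have := h1 hω
  simp only [h2] at this
  exact this

/-- anything off `K` (a general form): every function of the remaining graph and of the ghosts
outside `K` -/
theorem dep_rem_ofSet {β : Type*} (p h h' : ℝ) (K : Set (V d))
    (F : Set (Sym2 (V d)) → Set (V d) → Set (V d) → β) :
    DependsOn (fun ω : Om d => F ((Del.ofSet K).rem (opn p ω)) (ghost false h ω \ K)
      (ghost true h' ω \ K)) (tI K)ᶜ := by
  have h1 := dep_pair (dep_pair (dep_opn (d := d) p (touch K)ᶜ (S := (tI K)ᶜ)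
    fun e he h => he (inl_mem_tI.1 h))
    (dep_ghost (d := d) false h Kᶜ (S := (tI K)ᶜ) fun e he h => he (inr_mem_tI.1 h)))
    (dep_ghost (d := d) true h' Kᶜ (S := (tI K)ᶜ) fun e he h => he (inr_mem_tI.1 h))
  intro ω ω' hω
  have h2 := h1 hω
  simp only [Prod.mk.injEq] at h2
  have h3 : ∀ ω : Om d, (Del.ofSet K).rem (opn p ω) = opn p ω ∩ (touch K)ᶜ := by
    intro ω; rw [rem_ofSet]; rfl
  simp only [h3, Set.sdiff_eq]
  rw [h2.1.1, h2.1.2, h2.2]

end Pool.Agent.PB
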