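import Pool.Agent.PB.P.Tree
import Pool.Agent.PB.P.Reroot
import Pool.Agent.PB.Outs

/-!
PROJECT PB, P/NL: the nonlocal lemma, Section 6.6 (any level `p`, any deletion `A`, any start `y`).

`RcalP p R z`, `TRP p R t` = `Rcal R z`, `TR R t` of Outs.lean for `p = pc d` (`Rcal_eq`, `TR_eq`).
-/

set_option autoImplicit false
open MeasureTheory Filter Topology
open scoped ENNReal BigOperators

namespace Pool.Agent.PB

section det

variable {W : Type*} {O : Set (Sym2 W)}

/-- a simple path as data, with splitting at two of its vertices -/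
theorem exists_path_set2 {x y : W} (h : Rch O x y) : ∃ (P : Set W) (S : Set (Sym2 W)),
    P.Finite ∧ S.Finite ∧ x ∈ P ∧ y ∈ P ∧ S ⊆ O ∧ (∀ e ∈ S, ∀ z ∈ e, z ∈ P) ∧ Rch S x y ∧
      ∀ u ∈ P, ∀ w ∈ P, ∃ S₁ S₂ S₃ : Set (Sym2 W), S₁ ⊆ S ∧ S₂ ⊆ S ∧ S₃ ⊆ S ∧
        Disjoint S₁ S₂ ∧ Disjoint S₁ S₃ ∧ Disjoint S₂ S₃ ∧
        ((Rch S₁ x w ∧ Rch S₂ w u ∧ Rch S₃ u y) ∨ (Rch S₁ x u ∧ Rch S₂ u w ∧ Rch S₃ w y)) := by
  classical
  have h1 := rch_iff_reachable.1 h
  obtain ⟨p, hp⟩ := h1.exists_isPath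
  have hE : ∀ e ∈ p.edges, e ∈ O := by
    intro e he
    have := p.edges_subset_edgeSet he
    rw [SimpleGraph.edgeSet_fromEdgeSet] at this
    exact this.1
  have hw : ∀ {a b : W} (q : (SimpleGraph.fromEdgeSet O).Walk a b), Rch {e | e ∈ q.edges} a b := by
    intro a b q
    induction q with
    | nil => exact Rch.refl _ _
    | cons hadj q ih =>
      refine Rch.head (y := _) ?_ (Rch.mono ?_ ih)
      · simp
      · intro e he
        simp only [Set.mem_ofPred_eq, SimpleGraph.Walk.edges_cons, List.mem_cons] at he ⊢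
        exact Or.inr he
  have hsp : ∀ {a b : W} (q : (SimpleGraph.fromEdgeSet O).Walk a b), q.edges.Nodup →
      ∀ c (hc : c ∈ q.support), Disjoint {e | e ∈ (q.takeUntil c hc).edges}
        {e | e ∈ (q.dropUntil c hc).edges} := by
    intro a b q hnd c hc
    rw [← q.take_spec hc, SimpleGraph.Walk.edges_append, List.nodup_append'] at hnd
    rw [Set.disjoint_left]
    intro e h1 h2
    exact hnd.2.2 h1 h2
  refine ⟨{v | v ∈ p.support}, {e | e ∈ p.edges}, List.finite_toSet _, List.finite_toSet _,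
    p.start_mem_support, p.end_mem_support, hE, ?_, hw p, ?_⟩
  · intro e he z hz
    exact p.mem_support_of_mem_edges he hz
  · intro u huP w hwP
    have huP' : u ∈ p.support := huP
    have hwP' : w ∈ p.support := hwP
    have hnd := hp.isTrail.edges_nodup
    have hd := hsp p hnd u huP'
    have hw2 : w ∈ (p.takeUntil u huP').support ∨ w ∈ (p.dropUntil u huP').support := by
      rw [← p.take_spec huP', SimpleGraph.Walk.mem_support_append_iff] at hwP'
      exact hwP'
    have hnd2 := hnd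
    rw [← p.take_spec huP', SimpleGraph.Walk.edges_append, List.nodup_append'] at hnd2
    rcases hw2 with hw2 | hw2
    · have hd2 := hsp _ hnd2.1 w hw2
      have ht : {e | e ∈ ((p.takeUntil u huP').takeUntil w hw2).edges} ⊆
          {e | e ∈ (p.takeUntil u huP').edges} :=
        fun e he => SimpleGraph.Walk.edges_takeUntil_subset_edges _ hw2 he
      have hdr : {e | e ∈ ((p.takeUntil u huP').dropUntil w hw2).edges} ⊆
          {e | e ∈ (p.takeUntil u huP').edges} :=
        fun e he => SimpleGraph.Walk.edges_dropUntil_subset_edges _ hw2 he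
      exact ⟨{e | e ∈ ((p.takeUntil u huP').takeUntil w hw2).edges},
        {e | e ∈ ((p.takeUntil u huP').dropUntil w hw2).edges},
        {e | e ∈ (p.dropUntil u huP').edges},
        ht.trans (fun e he => p.edges_takeUntil_subset_edges huP' he),
        hdr.trans (fun e he => p.edges_takeUntil_subset_edges huP' he),
        fun e he => p.edges_dropUntil_subset_edges huP' he,
        hd2, hd.mono_left ht, hd.mono_left hdr, Or.inl ⟨hw _, hw _, hw _⟩⟩
    · have hd2 := hsp _ hnd2.2.1 w hw2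
      have ht : {e | e ∈ ((p.dropUntil u huP').takeUntil w hw2).edges} ⊆
          {e | e ∈ (p.dropUntil u huP').edges} :=
        fun e he => SimpleGraph.Walk.edges_takeUntil_subset_edges _ hw2 he
      have hdr : {e | e ∈ ((p.dropUntil u huP').dropUntil w hw2).edges} ⊆
          {e | e ∈ (p.dropUntil u huP').edges} :=
        fun e he => SimpleGraph.Walk.edges_dropUntil_subset_edges _ hw2 he
      exact ⟨{e | e ∈ (p.takeUntil u huP').edges},
        {e | e ∈ ((p.dropUntil u huP').takeUntil w hw2).edges},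
        {e | e ∈ ((p.dropUntil u huP').dropUntil w hw2).edges},
        fun e he => p.edges_takeUntil_subset_edges huP' he,
        ht.trans (fun e he => p.edges_dropUntil_subset_edges huP' he),
        hdr.trans (fun e he => p.edges_dropUntil_subset_edges huP' he),
        hd.mono_right ht, hd.mono_right hdr, hd2, Or.inr ⟨hw _, hw _, hw _⟩⟩

/-- a path from `y` to `z` leaving `B`, and a connection `y..g` -/
theorem exists_nonlocal {B : Set W} {y z g : W} (hz : Rch O y z)
    (hB : ¬ Rch (O ∩ ins B) y z) (hg : Rch O y g) :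
    ∃ x, x ∉ B ∧ ∃ w, DisjConn O ![(w, g), (y, w), (w, x), (x, z)] ∨
      DisjConn O ![(w, g), (y, x), (x, w), (w, z)] := by
  obtain ⟨P, S, hPf, hSf, hyP, hzP, hSO, hSP, hS, hsplit⟩ := exists_path_set2 hz
  have hx : ∃ x ∈ P, x ∉ B := by
    by_contra hcon
    push Not at hcon
    have hsub : S ⊆ O ∩ ins B := fun e he => ⟨hSO he, fun v hv => hcon v (hSP e he v hv)⟩
    exact hB (Rch.mono hsub hS)
  obtain ⟨x, hxP, hxB⟩ := hx
  have h3 : ∃ w ∈ P, ∃ T : Set (Sym2 W), T ⊆ O ∧ Disjoint T S ∧ Rch T w g := by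
    by_cases hgP : g ∈ P
    · exact ⟨g, hgP, ∅, Set.empty_subset _, Set.empty_disjoint _, Rch.refl _ _⟩
    · obtain ⟨a, b, ha, hb, hab, hr⟩ := Rch.exists_first_cross (O := O) Pᶜ (x := g) (y := y) hgP
        (by simpa using hyP) (Rch.symm hg)
      have hb' : b ∈ P := by simpa using hb
      refine ⟨b, hb', insert s(a, b) {e ∈ O | ∀ z ∈ e, z ∈ Pᶜ}, ?_, ?_, ?_⟩
      · exact Set.insert_subset hab fun e he => he.1
      · rw [Set.disjoint_left]
        rintro e (rfl | he) heS
        · exact ha (hSP _ heS a (Sym2.mem_mk_left a b))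
        · induction e using Sym2.ind with
          | _ u v => exact he.2 u (Sym2.mem_mk_left u v) (hSP _ heS u (Sym2.mem_mk_left u v))
      · refine Rch.head (y := a) ?_ (Rch.mono (Set.subset_insert _ _) (Rch.symm hr))
        rw [Sym2.eq_swap]
        exact Set.mem_insert _ _
  obtain ⟨w, hwP, T, hTO, hTS, hTg⟩ := h3
  obtain ⟨S₁, S₂, S₃, h1, h2, h3, h12, h13, h23, hr⟩ := hsplit x hxP w hwP
  refine ⟨x, hxB, w, ?_⟩
  have hsub : ∀ j : Fin 4, (![T, S₁, S₂, S₃] : Fin 4 → Set (Sym2 W)) j ⊆ O := by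
    intro j
    fin_cases j
    · exact hTO
    · exact h1.trans hSO
    · exact h2.trans hSO
    · exact h3.trans hSO
  have hdis : Pairwise (Function.onFun Disjoint (![T, S₁, S₂, S₃] : Fin 4 → Set (Sym2 W))) := by
    intro i j hij
    fin_cases i <;> fin_cases j
    · exact absurd rfl hij
    · exact hTS.mono_right h1
    · exact hTS.mono_right h2
    · exact hTS.mono_right h3
    · exact (hTS.mono_right h1).symm
    · exact absurd rfl hij
    · exact h12
    · exact h13
    · exact (hTS.mono_right h2).symm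
    · exact h12.symm
    · exact absurd rfl hij
    · exact h23
    · exact (hTS.mono_right h3).symm
    · exact h13.symm
    · exact h23.symm
    · exact absurd rfl hij
  rcases hr with ⟨hr1, hr2, hr3⟩ | ⟨hr1, hr2, hr3⟩
  · left
    refine ⟨![T, S₁, S₂, S₃], hsub, hdis, fun j => ?_⟩
    fin_cases j
    · exact hTg
    · exact hr1
    · exact hr2
    · exact hr3
  · right
    refine ⟨![T, S₁, S₂, S₃], hsub, hdis, fun j => ?_⟩
    fin_cases j
    · exact hTg
    · exact hr1
    · exact hr2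
    · exact hr3

end det

variable {d : ℕ}

/-- `R_R(z)` at level `p` -/
noncomputable def RcalP (p : ℝ) (R : ℕ) (z : V d) : ℝ≥0∞ := by
  classical exact ∑' x : V d, (if x ∉ bx R (0 : V d) then
    (conv (tau p) (tau p) x * tau p (z - x) + tau p x * conv (tau p) (tau p) (z - x)) else 0)

/-- `T_R(t)` at level `p` -/
noncomputable def TRP (p : ℝ) (R : ℕ) (t : V d → ℝ≥0∞) : ℝ≥0∞ := ∑' z : V d, t z * RcalP p R z

theorem Rcal_eq (R : ℕ) (z : V d) : RcalP (pc d) R z = Rcal R z := rfl

theorem TR_eq (R : ℕ) (t : V d → ℝ≥0∞) : TRP (pc d) R t = TR R t := rfl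

/-- 6.6, first statement, off any `A` -/
theorem nonlocal_le (p h : ℝ) (b : Bool) (A : Del (V d)) (R : ℕ) (y z : V d) :
    Pr d {ω | z ∈ ClA A (opn p ω) y ∧ z ∉ Lb R (A.rem (opn p ω)) y ∧
      RchA A (opn p ω) y (ghost b h ω)} ≤ RcalP p R (z - y) * Mg d p h := by
  classical
  let B : Set (V d) := bx R y
  have hsub : {ω : Om d | z ∈ ClA A (opn p ω) y ∧ z ∉ Lb R (A.rem (opn p ω)) y ∧
      RchA A (opn p ω) y (ghost b h ω)} ⊆ ⋃ x : V d, ⋃ w : V d,
      (if x ∉ B then ({ω | ∃ g ∈ ghost b h ω,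
        DisjConn (A.rem (opn p ω)) (Matrix.vecCons (w, g) ![(y, w), (w, x), (x, z)])} ∪
        {ω | ∃ g ∈ ghost b h ω,
        DisjConn (A.rem (opn p ω)) (Matrix.vecCons (w, g) ![(y, x), (x, w), (w, z)])}) else ∅) := by
    rintro ω ⟨hz, hL, g, hg, hyg⟩
    obtain ⟨x, hx, w, hw⟩ := exists_nonlocal (O := A.rem (opn p ω)) (B := B) hz.2 hL hyg.2
    refine Set.mem_iUnion.2 ⟨x, Set.mem_iUnion.2 ⟨w, ?_⟩⟩
    rw [if_pos hx]
    rcases hw with hw | hw
    · exact Or.inl ⟨g, hg, hw⟩
    · exact Or.inr ⟨g, hg, hw⟩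
  have hx : ∀ x : V d, (∑' w : V d, Pr d (if x ∉ B then ({ω | ∃ g ∈ ghost b h ω,
        DisjConn (A.rem (opn p ω)) (Matrix.vecCons (w, g) ![(y, w), (w, x), (x, z)])} ∪
        {ω | ∃ g ∈ ghost b h ω,
        DisjConn (A.rem (opn p ω)) (Matrix.vecCons (w, g) ![(y, x), (x, w), (w, z)])}) else ∅)) ≤
      (if x ∉ B then (conv (tau p) (tau p) (x - y) * tau p (z - x) +
        tau p (x - y) * conv (tau p) (tau p) (z - x)) else 0) * Mg d p h := by
    intro x
    by_cases hxB : x ∉ B
    · simp only [if_pos hxB]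
      calc _ ≤ ∑' w : V d, (Mg d p h * (tau p (w - y) * tau p (x - w) * tau p (z - x)) +
            Mg d p h * (tau p (x - y) * tau p (w - x) * tau p (z - w))) := by
            refine ENNReal.tsum_le_tsum fun w => (measure_union_le _ _).trans (add_le_add ?_ ?_)
            · refine (Pr_conn_ghost_le p h b A w ![(y, w), (w, x), (x, z)]).trans (le_of_eq ?_)
              rw [Fin.prod_univ_three]; rfl
            · refine (Pr_conn_ghost_le p h b A w ![(y, x), (x, w), (w, z)]).trans (le_of_eq ?_)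
              rw [Fin.prod_univ_three]; rfl
        _ = _ := by
            rw [ENNReal.tsum_add, ENNReal.tsum_mul_left, ENNReal.tsum_mul_left,
              ENNReal.tsum_mul_right, add_mul]
            have h1 : conv (tau p) (tau p) (x - y) = ∑' w, tau p (w - y) * tau p (x - w) := by
              unfold conv
              rw [← (Equiv.subRight y).tsum_eq (fun w => tau p w * tau p (x - y - w))]
              refine tsum_congr fun w => ?_
              simp only [Equiv.subRight_apply]
              rw [sub_sub_sub_cancel_right]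
            have h2 : conv (tau p) (tau p) (z - x) = ∑' w, tau p (w - x) * tau p (z - w) := by
              unfold conv
              rw [← (Equiv.subRight x).tsum_eq (fun w => tau p w * tau p (z - x - w))]
              refine tsum_congr fun w => ?_
              simp only [Equiv.subRight_apply]
              rw [sub_sub_sub_cancel_right]
            have h3 : (∑' w : V d, tau p (x - y) * tau p (w - x) * tau p (z - w)) =
                tau p (x - y) * conv (tau p) (tau p) (z - x) := by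
              rw [h2, ← ENNReal.tsum_mul_left]
              exact tsum_congr fun w => mul_assoc _ _ _
            rw [h3, h1]
            ring
    · simp only [if_neg hxB, measure_empty, tsum_zero, zero_mul, le_refl]
  calc _ ≤ ∑' x : V d, ∑' w : V d, Pr d (if x ∉ B then ({ω | ∃ g ∈ ghost b h ω,
        DisjConn (A.rem (opn p ω)) (Matrix.vecCons (w, g) ![(y, w), (w, x), (x, z)])} ∪
        {ω | ∃ g ∈ ghost b h ω,
        DisjConn (A.rem (opn p ω)) (Matrix.vecCons (w, g) ![(y, x), (x, w), (w, z)])}) else ∅) :=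
        (measure_mono hsub).trans ((measure_iUnion_le _).trans
          (ENNReal.tsum_le_tsum fun x => measure_iUnion_le _))
    _ ≤ ∑' x : V d, (if x ∉ B then (conv (tau p) (tau p) (x - y) * tau p (z - x) +
        tau p (x - y) * conv (tau p) (tau p) (z - x)) else 0) * Mg d p h :=
        ENNReal.tsum_le_tsum hx
    _ = RcalP p R (z - y) * Mg d p h := by
        rw [ENNReal.tsum_mul_right]
        congr 1
        unfold RcalP
        rw [← (Equiv.subRight y).tsum_eq (fun x => if x ∉ bx R (0 : V d) then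
          (conv (tau p) (tau p) x * tau p (z - y - x) +
            tau p x * conv (tau p) (tau p) (z - y - x)) else 0)]
        refine tsum_congr fun x => ?_
        have h1 : x ∈ B ↔ x - y ∈ bx R (0 : V d) := by
          simp only [B, bx, Set.mem_ofPred_eq, Pi.sub_apply, Pi.zero_apply, sub_zero]
        simp only [Equiv.subRight_apply, h1, sub_sub_sub_cancel_right]

theorem dep_opn_gI (p : ℝ) (b : Bool) : DependsOn (fun ω : Om d => opn p ω) (gI d b)ᶜ := by
  have h1 := dep_opn (d := d) p Set.univ (S := (gI d b)ᶜ) (fun e _ => by simp [gI])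
  intro ω ω' h
  have h2 := h1 h
  simpa only [Set.inter_univ] using h2

/-- `E[1_Q (1 - e^{-h|C_A(y)|})] = P(Q, y → G_h off A)` for events `Q` of the edges -/
theorem lintegral_hit_clA (p : ℝ) {h : ℝ} (hh : 0 < h) (b : Bool) (A : Del (V d)) (y : V d)
    (Q : Set (Sym2 (V d)) → Prop) (hQ : MeasurableSet {ω : Om d | Q (opn p ω)}) :
    ∫⁻ ω, {ω : Om d | Q (opn p ω)}.indicator 1 ω * (1 - ex h (ClA A (opn p ω) y)) ∂Pr d =
      Pr d {ω | Q (opn p ω) ∧ RchA A (opn p ω) y (ghost b h ω)} := by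
  have hd1 : DependsOn (fun ω : Om d => ClA A (opn p ω) y) (gI d b)ᶜ :=
    dep_comp (dep_opn_gI p b) (fun O => ClA A O y)
  have hd2 : DependsOn ({ω : Om d | Q (opn p ω)}.indicator (1 : Om d → ℝ≥0∞)) (gI d b)ᶜ := by
    intro ω ω' hω
    have h1 := dep_opn_gI p b hω
    simp only at h1
    have h2 : ω ∈ {ω : Om d | Q (opn p ω)} ↔ ω' ∈ {ω : Om d | Q (opn p ω)} := by
      simp only [Set.mem_ofPred_eq, h1]
    by_cases h3 : ω ∈ {ω : Om d | Q (opn p ω)}
    · rw [Set.indicator_of_mem h3, Set.indicator_of_mem (h2.1 h3)]; rfl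
    · rw [Set.indicator_of_notMem h3, Set.indicator_of_notMem (fun h => h3 (h2.2 h))]
  rw [← lintegral_ghost_hit b hh ((opn_MES p).clA A y) hd1 (measurable_one.indicator hQ) hd2,
    lintegral_indicator_one hQ, Measure.restrict_apply hQ]
  rfl

theorem meas_Lb (p : ℝ) (A : Del (V d)) (R : ℕ) (y z : V d) :
    MeasurableSet {ω : Om d | z ∈ Lb R (A.rem (opn p ω)) y} :=
  (((opn_MES p).rem A).inter (MES.const (ins (bx R y)))).rch y z

/-- 6.6, second statement: `E[(1 - e^{-hN}) Σ_{z ∈ C_A(y) \ L_R(y)} t(z-y)] ≤ T_R(t) M(h)` -/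
theorem nonlocal_sum (p : ℝ) {h : ℝ} (hh : 0 < h) (A : Del (V d)) (R : ℕ) (y : V d)
    (t : V d → ℝ≥0∞) :
    ∫⁻ ω, (1 - ex h (ClA A (opn p ω) y)) *
        ∑' z, (ClA A (opn p ω) y \ Lb R (A.rem (opn p ω)) y).indicator (fun z => t (z - y)) z ∂Pr d
      ≤ TRP p R t * Mg d p h := by
  let Q : V d → Set (Sym2 (V d)) → Prop := fun z O => z ∈ ClA A O y ∧ z ∉ Lb R (A.rem O) y
  have hQ : ∀ z, MeasurableSet {ω : Om d | Q z (opn p ω)} := fun z =>
    (((opn_MES p).clA A y) z).inter (meas_Lb p A R y z).compl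
  have h1 : ∀ ω : Om d, (1 - ex h (ClA A (opn p ω) y)) *
      ∑' z, (ClA A (opn p ω) y \ Lb R (A.rem (opn p ω)) y).indicator (fun z => t (z - y)) z =
      ∑' z, t (z - y) * ({ω : Om d | Q z (opn p ω)}.indicator 1 ω *
        (1 - ex h (ClA A (opn p ω) y))) := by
    intro ω
    rw [← ENNReal.tsum_mul_left]
    refine tsum_congr fun z => ?_
    by_cases hz : z ∈ ClA A (opn p ω) y \ Lb R (A.rem (opn p ω)) y
    · have hz' : ω ∈ {ω : Om d | Q z (opn p ω)} := hz
      rw [Set.indicator_of_mem hz, Set.indicator_of_mem hz', Pi.one_apply]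
      ring
    · have hz' : ω ∉ {ω : Om d | Q z (opn p ω)} := hz
      rw [Set.indicator_of_notMem hz, Set.indicator_of_notMem hz']
      simp
  simp only [h1]
  have hmz : ∀ z, Measurable (fun ω : Om d => ({ω : Om d | Q z (opn p ω)}.indicator 1 ω *
      (1 - ex h (ClA A (opn p ω) y)) : ℝ≥0∞)) := fun z =>
    (measurable_one.indicator (hQ z)).mul
      (measurable_const.sub (measurable_ex ((opn_MES p).clA A y)))
  rw [lintegral_tsum fun z => ((hmz z).const_mul _).aemeasurable]
  have h2 : ∀ z, ∫⁻ ω, t (z - y) * ({ω : Om d | Q z (opn p ω)}.indicator 1 ω *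
        (1 - ex h (ClA A (opn p ω) y))) ∂Pr d ≤ t (z - y) * (RcalP p R (z - y) * Mg d p h) := by
    intro z
    rw [lintegral_const_mul _ (hmz z), lintegral_hit_clA p hh false A y (Q z) (hQ z)]
    refine mul_le_mul' le_rfl (le_trans (measure_mono ?_) (nonlocal_le p h false A R y z))
    rintro ω ⟨⟨h1, h2⟩, h3⟩
    exact ⟨h1, h2, h3⟩
  refine (ENNReal.tsum_le_tsum h2).trans (le_of_eq ?_)
  unfold TRP
  rw [← ENNReal.tsum_mul_right, ← (Equiv.subRight y).tsum_eq (fun z => t z * RcalP p R z * Mg d p h)]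
  exact tsum_congr fun z => by simp only [Equiv.subRight_apply]; ring

/-- `E[(1 - e^{-hN}) Σ_{z ∈ C_A(y)} t(z-y)] ≤ (Σ_z t(z) (τ*τ)(z)) M(h)` -/
theorem cluster_sum (p : ℝ) {h : ℝ} (hh : 0 < h) (A : Del (V d)) (y : V d) (t : V d → ℝ≥0∞) :
    ∫⁻ ω, (1 - ex h (ClA A (opn p ω) y)) *
        ∑' z, (ClA A (opn p ω) y).indicator (fun z => t (z - y)) z ∂Pr d
      ≤ (∑' z, t z * conv (tau p) (tau p) z) * Mg d p h := by
  let Q : V d → Set (Sym2 (V d)) → Prop := fun z O => z ∈ ClA A O y
  have hQ : ∀ z, MeasurableSet {ω : Om d | Q z (opn p ω)} := fun z => ((opn_MES p).clA A y) z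
  have h1 : ∀ ω : Om d, (1 - ex h (ClA A (opn p ω) y)) *
      ∑' z, (ClA A (opn p ω) y).indicator (fun z => t (z - y)) z =
      ∑' z, t (z - y) * ({ω : Om d | Q z (opn p ω)}.indicator 1 ω *
        (1 - ex h (ClA A (opn p ω) y))) := by
    intro ω
    rw [← ENNReal.tsum_mul_left]
    refine tsum_congr fun z => ?_
    by_cases hz : z ∈ ClA A (opn p ω) y
    · have hz' : ω ∈ {ω : Om d | Q z (opn p ω)} := hz
      rw [Set.indicator_of_mem hz, Set.indicator_of_mem hz', Pi.one_apply]
      ring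
    · have hz' : ω ∉ {ω : Om d | Q z (opn p ω)} := hz
      rw [Set.indicator_of_notMem hz, Set.indicator_of_notMem hz']
      simp
  simp only [h1]
  have hmz : ∀ z, Measurable (fun ω : Om d => ({ω : Om d | Q z (opn p ω)}.indicator 1 ω *
      (1 - ex h (ClA A (opn p ω) y)) : ℝ≥0∞)) := fun z =>
    (measurable_one.indicator (hQ z)).mul
      (measurable_const.sub (measurable_ex ((opn_MES p).clA A y)))
  rw [lintegral_tsum fun z => ((hmz z).const_mul _).aemeasurable]
  have h2 : ∀ z, ∫⁻ ω, t (z - y) * ({ω : Om d | Q z (opn p ω)}.indicator 1 ω *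
        (1 - ex h (ClA A (opn p ω) y))) ∂Pr d ≤
        t (z - y) * (conv (tau p) (tau p) (z - y) * Mg d p h) := by
    intro z
    rw [lintegral_const_mul _ (hmz z), lintegral_hit_clA p hh false A y (Q z) (hQ z)]
    exact mul_le_mul' le_rfl (tree_bound p h false A y z)
  refine (ENNReal.tsum_le_tsum h2).trans (le_of_eq ?_)
  rw [← ENNReal.tsum_mul_right,
    ← (Equiv.subRight y).tsum_eq (fun z => t z * conv (tau p) (tau p) z * Mg d p h)]
  exact tsum_congr fun z => by simp only [Equiv.subRight_apply]; ring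

/-- `h N e^{-hN} ≤ 1 - e^{-hN}` -/
theorem mul_ex_le {W : Type*} {h : ℝ} (hh : 0 ≤ h) (S : Set W) :
    ENNReal.ofReal h * (S.encard : ℝ≥0∞) * ex h S ≤ 1 - ex h S := by
  by_cases hS : S.Finite
  · rw [ex_fin h hS, ← hS.cast_ncard_eq]
    have h1 : (1 : ℝ≥0∞) - ENNReal.ofReal (Real.exp (-(h * (S.ncard : ℝ)))) =
        ENNReal.ofReal (1 - Real.exp (-(h * (S.ncard : ℝ)))) := by
      rw [← ENNReal.ofReal_one, ← ENNReal.ofReal_sub _ (Real.exp_pos _).le]
    have h2 : (((S.ncard : ℕ∞) : ℝ≥0∞)) = ENNReal.ofReal (S.ncard : ℝ) := by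
      rw [ENNReal.ofReal_natCast]; rfl
    rw [h1, h2, ← ENNReal.ofReal_mul hh, ← ENNReal.ofReal_mul (by positivity)]
    refine ENNReal.ofReal_le_ofReal ?_
    set a : ℝ := h * (S.ncard : ℝ) with ha
    have h3 : a + 1 ≤ Real.exp a := Real.add_one_le_exp a
    have h4 : Real.exp a * Real.exp (-a) = 1 := by rw [← Real.exp_add]; simp
    nlinarith [Real.exp_pos (-a)]
  · rw [ex_inf h hS, mul_zero]; exact zero_le

/-- total mass: `Σ_x Σ_z t(z) [...] = 2 (τ^{*3} * t)(0)` -/
theorem TRP_total (p : ℝ) {t : V d → ℝ≥0∞} (ht : ∀ x, t (-x) = t x) :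
    ∑' x : V d, ∑' z : V d, t z * (conv (tau p) (tau p) x * tau p (z - x) +
      tau p x * conv (tau p) (tau p) (z - x)) = 2 * conv (cpow (tau p) 3) t 0 := by
  have h1 : ∀ z : V d, (∑' x : V d, t z * (conv (tau p) (tau p) x * tau p (z - x) +
      tau p x * conv (tau p) (tau p) (z - x))) = 2 * (cpow (tau p) 3 z * t z) := by
    intro z
    rw [ENNReal.tsum_mul_left, ENNReal.tsum_add]
    have h2 : (∑' x : V d, conv (tau p) (tau p) x * tau p (z - x)) = cpow (tau p) 3 z := by
      rw [cpow_three, ← conv_assoc]; rfl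
    have h3 : (∑' x : V d, tau p x * conv (tau p) (tau p) (z - x)) = cpow (tau p) 3 z := by
      rw [cpow_three]; rfl
    rw [h2, h3]
    ring
  rw [ENNReal.tsum_comm, conv_zero_eq ht, ← ENNReal.tsum_mul_left]
  exact tsum_congr h1

/-- `T_R(t) → 0` if `(τ^{*3} * t)(0) < ∞` -/
theorem TRP_tendsto (p : ℝ) {t : V d → ℝ≥0∞} (ht : ∀ x, t (-x) = t x)
    (hfin : conv (cpow (tau p) 3) t 0 ≠ ⊤) :
    Tendsto (fun R : ℕ => TRP p R t) atTop (𝓝 0) := by
  classical
  set F : V d → ℝ≥0∞ := fun x => ∑' z : V d, t z * (conv (tau p) (tau p) x * tau p (z - x) +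
      tau p x * conv (tau p) (tau p) (z - x)) with hF
  have hFs : ∑' x, F x ≠ ⊤ := by
    rw [hF, TRP_total p ht]
    exact ENNReal.mul_ne_top (by norm_num) hfin
  have hTR : ∀ R : ℕ, TRP p R t = ∑' x : V d, if x ∉ bx R (0 : V d) then F x else 0 := by
    intro R
    unfold TRP RcalP
    have h1 : ∀ z : V d, (t z * ∑' x : V d, (if x ∉ bx R (0 : V d) then
        (conv (tau p) (tau p) x * tau p (z - x) + tau p x * conv (tau p) (tau p) (z - x)) else 0)) =
        ∑' x : V d, (if x ∉ bx R (0 : V d) then t z * (conv (tau p) (tau p) x * tau p (z - x) +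
          tau p x * conv (tau p) (tau p) (z - x)) else 0) := by
      intro z
      rw [← ENNReal.tsum_mul_left]
      refine tsum_congr fun x => ?_
      split_ifs
      · rw [mul_zero]
      · rfl
    rw [tsum_congr h1, ENNReal.tsum_comm]
    refine tsum_congr fun x => ?_
    split_ifs
    · exact tsum_zero
    · rfl
  have htail := ENNReal.tendsto_tsum_compl_atTop_zero hFs
  rw [ENNReal.tendsto_nhds_zero] at htail ⊢
  intro ε hε
  obtain ⟨s, hs⟩ := Filter.eventually_atTop.1 (htail ε hε)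
  have hR : ∀ᶠ R : ℕ in atTop, ∀ x ∈ s, x ∈ bx R (0 : V d) := by
    rw [Filter.eventually_all_finset]
    intro x _
    refine Filter.eventually_atTop.2 ⟨∑ i, (x i).natAbs, fun R hR i => ?_⟩
    have h1 : (x i).natAbs ≤ ∑ i, (x i).natAbs :=
      Finset.single_le_sum (f := fun i => (x i).natAbs) (fun _ _ => Nat.zero_le _)
        (Finset.mem_univ i)
    have h2 : |x i| = ((x i).natAbs : ℤ) := Int.abs_eq_natAbs _
    rw [Pi.zero_apply, sub_zero, h2]
    exact_mod_cast h1.trans hR
  filter_upwards [hR] with R hR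
  rw [hTR R]
  refine le_trans ?_ (hs s le_rfl)
  have hsub : (∑' b : {x : V d // x ∉ s}, F b) = ∑' x, {x : V d | x ∉ s}.indicator F x :=
    tsum_subtype {x : V d | x ∉ s} F
  rw [hsub]
  refine ENNReal.tsum_le_tsum fun x => ?_
  by_cases hx : x ∈ bx R (0 : V d)
  · rw [if_neg (by simpa using hx)]; exact zero_le
  · have hxs : x ∉ s := fun h => hx (hR x h)
    rw [if_pos hx]
    exact le_of_eq (Set.indicator_of_mem (s := {x : V d | x ∉ s}) hxs F).symm

end Pool.Agent.PB
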