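import Pool.Agent.PB.P.Expl
import Pool.Agent.PB.BK

/-!
PROJECT PB, P/BKw: the BK inequality for connections and ghosts.

* `dOcc_gen`, `bk_gen`: general link: monotone events `f j` of (edges at level `p j`, edges at level
  `p' j`, ghosts of both types at levels `h j b`) witnessed on pairwise disjoint finite sets of
  edges and of ghost labels;
* `Pr_disjConn_le`: `P(DisjConn (A.rem O) q) ≤ ∏ τ`;
* `Pr_conn_ghost_le`: the same with one connection to a ghost, `Pr_conn_ghost2_le` with two
  connections to ghosts of different types, `Pr_conn_ghost_ne_le`: same type, different end points.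
-/

set_option autoImplicit false
open MeasureTheory Filter Topology
open scoped ENNReal BigOperators

namespace Pool.Agent.PB

variable {d : ℕ}

/-- monotone event of (edges, edges, ghosts) -/
def Mono3 (f : Set (Sym2 (V d)) → Set (Sym2 (V d)) → (Bool → Set (V d)) → Prop) : Prop :=
  ∀ O₁ O₂ P₁ P₂ G₁ G₂, O₁ ⊆ O₂ → P₁ ⊆ P₂ → (∀ b, G₁ b ⊆ G₂ b) → f O₁ P₁ G₁ → f O₂ P₂ G₂

/-- the event `f(O_p, O_{p'}, ghosts)` -/
def ev3 (p p' : ℝ) (h : Bool → ℝ)
    (f : Set (Sym2 (V d)) → Set (Sym2 (V d)) → (Bool → Set (V d)) → Prop) : Set (Om d) :=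
  {ω | f (opn p ω) (opn p' ω) (fun b => ghost b (h b) ω)}

theorem isUp_ev3 (p p' : ℝ) (h : Bool → ℝ)
    {f : Set (Sym2 (V d)) → Set (Sym2 (V d)) → (Bool → Set (V d)) → Prop} (hf : Mono3 f) :
    IsUp (ev3 p p' h f) := by
  intro ω ω' hω h1
  refine hf _ _ _ _ _ _ ?_ ?_ ?_ h1
  · exact fun e he => ⟨he.1, le_trans (by exact_mod_cast hω (Sum.inl e)) he.2⟩
  · exact fun e he => ⟨he.1, le_trans (by exact_mod_cast hω (Sum.inl e)) he.2⟩
  · intro b v hv
    have h2 : ((ω' (Sum.inr (v, b)) : unitInterval) : ℝ) ≤ ((ω (Sum.inr (v, b)) : unitInterval) : ℝ) :=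
      by exact_mod_cast hω (Sum.inr (v, b))
    exact le_trans h2 hv

theorem sub_inter_self {A : Del (V d)} {O S : Set (Sym2 (V d))} (hS : S ⊆ A.rem O) :
    S ⊆ O ∩ S := fun _ he => ⟨A.rem_subset _ (hS he), he⟩

/-- the witness condition: on the edges `S` and the ghost labels `G` -/
def wit3 (p p' : ℝ) (h : Bool → ℝ)
    (f : Set (Sym2 (V d)) → Set (Sym2 (V d)) → (Bool → Set (V d)) → Prop)
    (S : Set (Sym2 (V d))) (G : Set (V d × Bool)) (ω : Om d) : Prop :=
  f (opn p ω ∩ S) (opn p' ω ∩ S) (fun b => ghost b (h b) ω ∩ {v | (v, b) ∈ G})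

theorem dOcc_gen {k : ℕ} (p p' : Fin k → ℝ) (h : Fin k → Bool → ℝ) {ω : Om d}
    {f : Fin k → Set (Sym2 (V d)) → Set (Sym2 (V d)) → (Bool → Set (V d)) → Prop}
    (hf : ∀ j, Mono3 (f j)) (S : Fin k → Set (Sym2 (V d))) (G : Fin k → Set (V d × Bool))
    (hSf : ∀ j, (S j).Finite) (hGf : ∀ j, (G j).Finite)
    (hS : Pairwise (Function.onFun Disjoint S)) (hG : Pairwise (Function.onFun Disjoint G))
    (hw : ∀ j, wit3 (p j) (p' j) (h j) (f j) (S j) (G j) ω) :
    ω ∈ dOcc (fun j => ev3 (p j) (p' j) (h j) (f j)) := by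
  classical
  refine ⟨fun j => (hSf j).toFinset.image Sum.inl ∪ (hGf j).toFinset.image Sum.inr, ?_, ?_⟩
  · intro i j hij
    have h1 := hS hij
    have h2 := hG hij
    simp only [Function.onFun] at h1 h2 ⊢
    rw [Finset.disjoint_left]
    intro a ha hb
    simp only [Finset.mem_union, Finset.mem_image, Set.Finite.mem_toFinset] at ha hb
    rcases ha with ⟨e, he, rfl⟩ | ⟨v, hv, rfl⟩
    · rcases hb with ⟨e', he', h'⟩ | ⟨v, _, h'⟩
      · cases Sum.inl_injective h'
        exact Set.disjoint_left.1 h1 he he'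
      · cases h'
    · rcases hb with ⟨e', _, h'⟩ | ⟨v', hv', h'⟩
      · cases h'
      · cases Sum.inr_injective h'
        exact Set.disjoint_left.1 h2 hv hv'
  · intro j
    refine hf j _ _ _ _ _ _ ?_ ?_ ?_ (hw j)
    · rintro e ⟨he, heS⟩
      refine ⟨he.1, ?_⟩
      rw [restr_of_mem ω (by simpa using heS)]
      exact he.2
    · rintro e ⟨he, heS⟩
      refine ⟨he.1, ?_⟩
      rw [restr_of_mem ω (by simpa using heS)]
      exact he.2
    · rintro b v ⟨hv, hvG⟩
      show ((restr _ ω (Sum.inr (v, b)) : unitInterval) : ℝ) ≤ _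
      rw [restr_of_mem ω (by simpa using hvG)]
      exact hv

theorem bk_gen {k : ℕ} (p p' : Fin k → ℝ) (h : Fin k → Bool → ℝ)
    {f : Fin k → Set (Sym2 (V d)) → Set (Sym2 (V d)) → (Bool → Set (V d)) → Prop}
    (hf : ∀ j, Mono3 (f j)) (hm : ∀ j, MeasurableSet (ev3 (p j) (p' j) (h j) (f j)))
    {E : Set (Om d)}
    (hE : ∀ ω ∈ E, ∃ (S : Fin k → Set (Sym2 (V d))) (G : Fin k → Set (V d × Bool)),
      (∀ j, (S j).Finite) ∧ (∀ j, (G j).Finite) ∧ Pairwise (Function.onFun Disjoint S) ∧
      Pairwise (Function.onFun Disjoint G) ∧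
      ∀ j, wit3 (p j) (p' j) (h j) (f j) (S j) (G j) ω) :
    Pr d E ≤ ∏ j, Pr d (ev3 (p j) (p' j) (h j) (f j)) := by
  refine le_trans (measure_mono fun ω hω => ?_)
    (bk_Pr hm fun j => isUp_ev3 (p j) (p' j) (h j) (hf j))
  obtain ⟨S, G, h1, h2, h3, h4, h5⟩ := hE ω hω
  exact dOcc_gen p p' h hf S G h1 h2 h3 h4 h5

/-! ### Connections -/

/-- `f` for a connection `x ↔ y` -/
def fRch (x y : V d) : Set (Sym2 (V d)) → Set (Sym2 (V d)) → (Bool → Set (V d)) → Prop :=
  fun O _ _ => Rch O x y

/-- `f` for a connection from `x` to the ghosts of type `b` -/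
def fGh (b : Bool) (x : V d) : Set (Sym2 (V d)) → Set (Sym2 (V d)) → (Bool → Set (V d)) → Prop :=
  fun O _ G => RchT O x (G b)

theorem mono_fRch (x y : V d) : Mono3 (fRch x y) :=
  fun _ _ _ _ _ _ h _ _ h1 => Rch.mono h h1

theorem mono_fGh (b : Bool) (x : V d) : Mono3 (fGh b x) :=
  fun _ _ _ _ _ _ h _ hG ⟨g, hg, h1⟩ => ⟨g, hG b hg, Rch.mono h h1⟩

theorem Pr_fRch (p p' : ℝ) (h : Bool → ℝ) (x y : V d) :
    Pr d (ev3 p p' h (fRch x y)) = tau p (y - x) := tau_shift p x y

/-- exchange of the two ghost types -/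
def swI (d : ℕ) : Ix d ≃ Ix d :=
  Equiv.sumCongr (Equiv.refl _) (Equiv.prodCongr (Equiv.refl _) Equiv.boolNot)

theorem Pr_ghost_type (p h : ℝ) (b : Bool) (x : V d) :
    Pr d {ω | RchT (opn p ω) x (ghost b h ω)} = Mg d p h := by
  cases b with
  | false => exact Mg_shift p h x
  | true =>
    rw [← Mg_shift p h x, Pr_eq, ← measure_comp_equiv (swI d)]
    rfl

theorem Pr_fGh (p p' : ℝ) (h : Bool → ℝ) (b : Bool) (x : V d) :
    Pr d (ev3 p p' h (fGh b x)) = Mg d p (h b) := Pr_ghost_type p (h b) b x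

theorem meas_fRch (p p' : ℝ) (h : Bool → ℝ) (x y : V d) :
    MeasurableSet (ev3 p p' h (fRch x y)) := (opn_MES p).rch x y

theorem meas_fGh (p p' : ℝ) (h : Bool → ℝ) (b : Bool) (x : V d) :
    MeasurableSet (ev3 p p' h (fGh b x)) := (opn_MES p).rchT (ghost_MVS b (h b)) x

theorem Pr_disjConn_le {k : ℕ} (p : ℝ) (A : Del (V d)) (q : Fin k → V d × V d) :
    Pr d {ω | DisjConn (A.rem (opn p ω)) q} ≤ ∏ j, tau p ((q j).2 - (q j).1) := by
  have h1 := bk_gen (d := d) (fun _ : Fin k => p) (fun _ => p) (fun _ _ => 0)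
    (f := fun j => fRch (q j).1 (q j).2) (fun j => mono_fRch _ _) (fun j => meas_fRch _ _ _ _ _)
    (E := {ω | DisjConn (A.rem (opn p ω)) q}) (by
      intro ω hω
      obtain ⟨S, h1, h2, h3, h4⟩ := DisjConn.exists_finite hω
      refine ⟨S, fun _ => ∅, h2, fun _ => Set.finite_empty, h3, fun i j _ => ?_, fun j => ?_⟩
      · exact Set.disjoint_empty _
      · exact Rch.mono (sub_inter_self (h1 j)) (h4 j))
  simpa only [Pr_fRch] using h1

/-- one connection to a ghost of type `b` (first), the others to points -/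
theorem Pr_conn_ghost_le {k : ℕ} (p h : ℝ) (b : Bool) (A : Del (V d)) (w : V d)
    (q : Fin k → V d × V d) :
    Pr d {ω | ∃ g ∈ ghost b h ω, DisjConn (A.rem (opn p ω)) (Matrix.vecCons (w, g) q)} ≤
      Mg d p h * ∏ j, tau p ((q j).2 - (q j).1) := by
  let f : Fin (k + 1) → Set (Sym2 (V d)) → Set (Sym2 (V d)) → (Bool → Set (V d)) → Prop :=
    Fin.cons (fGh b w) (fun j => fRch (q j).1 (q j).2)
  have h1 := bk_gen (d := d) (fun _ : Fin (k + 1) => p) (fun _ => p) (fun _ _ => h)
    (f := f) (fun j => by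
      refine Fin.cases ?_ (fun j => ?_) j
      · exact mono_fGh b w
      · exact mono_fRch _ _) (fun j => by
      refine Fin.cases ?_ (fun j => ?_) j
      · exact meas_fGh p p _ b w
      · exact meas_fRch p p _ _ _)
    (E := {ω | ∃ g ∈ ghost b h ω, DisjConn (A.rem (opn p ω)) (Matrix.vecCons (w, g) q)}) (by
      rintro ω ⟨g, hg, hω⟩
      obtain ⟨S, h1, h2, h3, h4⟩ := DisjConn.exists_finite hω
      refine ⟨S, Fin.cons {(g, b)} (fun _ => ∅), h2, fun j => ?_, h3, fun i j hij => ?_, fun j => ?_⟩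
      · refine Fin.cases ?_ (fun j => ?_) j
        · exact Set.finite_singleton _
        · exact Set.finite_empty
      · revert hij
        refine Fin.cases ?_ (fun i => ?_) i
        · refine Fin.cases ?_ (fun j => ?_) j
          · intro h; exact absurd rfl h
          · intro _; exact Set.disjoint_empty _
        · intro _; exact Set.empty_disjoint _
      · refine Fin.cases ?_ (fun j => ?_) j
        · refine ⟨g, ⟨hg, rfl⟩, ?_⟩
          exact Rch.mono (sub_inter_self (h1 0)) (h4 0)
        · exact Rch.mono (sub_inter_self (h1 j.succ)) (h4 j.succ))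
  refine h1.trans (le_of_eq ?_)
  rw [Fin.prod_univ_succ]
  refine congrArg₂ (· * ·) (Pr_fGh p p _ b w) (Finset.prod_congr rfl fun j _ => ?_)
  exact Pr_fRch p p _ _ _

/-- two connections to ghosts of different types (first two), the others to points -/
theorem Pr_conn_ghost2_le {k : ℕ} (p δ h : ℝ) (A : Del (V d)) (w w' : V d)
    (q : Fin k → V d × V d) :
    Pr d {ω | ∃ g ∈ ghost true δ ω, ∃ g' ∈ ghost false h ω,
        DisjConn (A.rem (opn p ω)) (Matrix.vecCons (w, g) (Matrix.vecCons (w', g') q))} ≤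
      Mg d p δ * (Mg d p h * ∏ j, tau p ((q j).2 - (q j).1)) := by
  let f : Fin (k + 2) → Set (Sym2 (V d)) → Set (Sym2 (V d)) → (Bool → Set (V d)) → Prop :=
    Fin.cons (fGh true w) (Fin.cons (fGh false w') (fun j => fRch (q j).1 (q j).2))
  have h1 := bk_gen (d := d) (fun _ : Fin (k + 2) => p) (fun _ => p)
    (fun _ b => if b then δ else h) (f := f) (fun j => by
      refine Fin.cases ?_ (fun j => Fin.cases ?_ (fun j => ?_) j) j
      · exact mono_fGh true w
      · exact mono_fGh false w'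
      · exact mono_fRch _ _) (fun j => by
      refine Fin.cases ?_ (fun j => Fin.cases ?_ (fun j => ?_) j) j
      · exact meas_fGh p p _ true w
      · exact meas_fGh p p _ false w'
      · exact meas_fRch p p _ _ _)
    (E := {ω | ∃ g ∈ ghost true δ ω, ∃ g' ∈ ghost false h ω,
        DisjConn (A.rem (opn p ω)) (Matrix.vecCons (w, g) (Matrix.vecCons (w', g') q))}) (by
      rintro ω ⟨g, hg, g', hg', hω⟩
      obtain ⟨S, h1, h2, h3, h4⟩ := DisjConn.exists_finite hω
      refine ⟨S, Fin.cons {(g, true)} (Fin.cons {(g', false)} (fun _ => ∅)), h2, fun j => ?_, h3,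
        fun i j hij => ?_, fun j => ?_⟩
      · refine Fin.cases ?_ (fun j => Fin.cases ?_ (fun j => ?_) j) j
        · exact Set.finite_singleton _
        · exact Set.finite_singleton _
        · exact Set.finite_empty
      · revert hij
        refine Fin.cases ?_ (fun i => Fin.cases ?_ (fun i => ?_) i) i
        · refine Fin.cases ?_ (fun j => Fin.cases ?_ (fun j => ?_) j) j
          · intro h; exact absurd rfl h
          · intro _
            show Disjoint ({(g, true)} : Set (V d × Bool)) {(g', false)}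
            simp
          · intro _; exact Set.disjoint_empty _
        · refine Fin.cases ?_ (fun j => Fin.cases ?_ (fun j => ?_) j) j
          · intro _
            show Disjoint ({(g', false)} : Set (V d × Bool)) {(g, true)}
            simp
          · intro h; exact absurd rfl h
          · intro _; exact Set.disjoint_empty _
        · intro _; exact Set.empty_disjoint _
      · refine Fin.cases ?_ (fun j => Fin.cases ?_ (fun j => ?_) j) j
        · refine ⟨g, ⟨hg, rfl⟩, ?_⟩
          exact Rch.mono (sub_inter_self (h1 0)) (h4 0)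
        · refine ⟨g', ⟨hg', rfl⟩, ?_⟩
          exact Rch.mono (sub_inter_self (h1 1)) (h4 1)
        · exact Rch.mono (sub_inter_self (h1 j.succ.succ)) (h4 j.succ.succ))
  refine h1.trans (le_of_eq ?_)
  rw [Fin.prod_univ_succ, Fin.prod_univ_succ]
  refine congrArg₂ (· * ·) (Pr_fGh p p _ true w) (congrArg₂ (· * ·) (Pr_fGh p p _ false w')
    (Finset.prod_congr rfl fun j _ => ?_))
  exact Pr_fRch p p _ _ _

/-- two connections to DIFFERENT ghosts of the same type (first two), the others to points -/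
theorem Pr_conn_ghost_ne_le {k : ℕ} (p h : ℝ) (b : Bool) (A : Del (V d)) (w w' : V d)
    (q : Fin k → V d × V d) :
    Pr d {ω | ∃ g ∈ ghost b h ω, ∃ g' ∈ ghost b h ω, g ≠ g' ∧
        DisjConn (A.rem (opn p ω)) (Matrix.vecCons (w, g) (Matrix.vecCons (w', g') q))} ≤
      Mg d p h * (Mg d p h * ∏ j, tau p ((q j).2 - (q j).1)) := by
  let f : Fin (k + 2) → Set (Sym2 (V d)) → Set (Sym2 (V d)) → (Bool → Set (V d)) → Prop :=
    Fin.cons (fGh b w) (Fin.cons (fGh b w') (fun j => fRch (q j).1 (q j).2))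
  have h1 := bk_gen (d := d) (fun _ : Fin (k + 2) => p) (fun _ => p)
    (fun _ _ => h) (f := f) (fun j => by
      refine Fin.cases ?_ (fun j => Fin.cases ?_ (fun j => ?_) j) j
      · exact mono_fGh b w
      · exact mono_fGh b w'
      · exact mono_fRch _ _) (fun j => by
      refine Fin.cases ?_ (fun j => Fin.cases ?_ (fun j => ?_) j) j
      · exact meas_fGh p p _ b w
      · exact meas_fGh p p _ b w'
      · exact meas_fRch p p _ _ _)
    (E := {ω | ∃ g ∈ ghost b h ω, ∃ g' ∈ ghost b h ω, g ≠ g' ∧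
        DisjConn (A.rem (opn p ω)) (Matrix.vecCons (w, g) (Matrix.vecCons (w', g') q))}) (by
      rintro ω ⟨g, hg, g', hg', hne, hω⟩
      obtain ⟨S, h1, h2, h3, h4⟩ := DisjConn.exists_finite hω
      refine ⟨S, Fin.cons {(g, b)} (Fin.cons {(g', b)} (fun _ => ∅)), h2, fun j => ?_, h3,
        fun i j hij => ?_, fun j => ?_⟩
      · refine Fin.cases ?_ (fun j => Fin.cases ?_ (fun j => ?_) j) j
        · exact Set.finite_singleton _
        · exact Set.finite_singleton _
        · exact Set.finite_empty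
      · revert hij
        refine Fin.cases ?_ (fun i => Fin.cases ?_ (fun i => ?_) i) i
        · refine Fin.cases ?_ (fun j => Fin.cases ?_ (fun j => ?_) j) j
          · intro h; exact absurd rfl h
          · intro _
            show Disjoint ({(g, b)} : Set (V d × Bool)) {(g', b)}
            rw [Set.disjoint_singleton]
            exact fun h => hne (Prod.mk.inj h).1
          · intro _; exact Set.disjoint_empty _
        · refine Fin.cases ?_ (fun j => Fin.cases ?_ (fun j => ?_) j) j
          · intro _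
            show Disjoint ({(g', b)} : Set (V d × Bool)) {(g, b)}
            rw [Set.disjoint_singleton]
            exact fun h => hne (Prod.mk.inj h).1.symm
          · intro h; exact absurd rfl h
          · intro _; exact Set.disjoint_empty _
        · intro _; exact Set.empty_disjoint _
      · refine Fin.cases ?_ (fun j => Fin.cases ?_ (fun j => ?_) j) j
        · refine ⟨g, ⟨hg, rfl⟩, ?_⟩
          exact Rch.mono (sub_inter_self (h1 0)) (h4 0)
        · refine ⟨g', ⟨hg', rfl⟩, ?_⟩
          exact Rch.mono (sub_inter_self (h1 1)) (h4 1)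
        · exact Rch.mono (sub_inter_self (h1 j.succ.succ)) (h4 j.succ.succ))
  refine h1.trans (le_of_eq ?_)
  rw [Fin.prod_univ_succ, Fin.prod_univ_succ]
  refine congrArg₂ (· * ·) (Pr_fGh p p _ b w) (congrArg₂ (· * ·) (Pr_fGh p p _ b w')
    (Finset.prod_congr rfl fun j _ => ?_))
  exact Pr_fRch p p _ _ _

end Pool.Agent.PB
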