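import Pool.Agent.PB.P.Tree

/-!
PROJECT PB, P/Cont: left continuity in `p` of probabilities of finitary monotone events, `M(p,h)`
as `h → 0` (N7).
-/

set_option autoImplicit false
open MeasureTheory Filter Topology
open scoped ENNReal BigOperators

namespace Pool.Agent.PB

variable {d : ℕ}

/-- almost surely no edge label equals `p` -/
theorem null_label_eq (p : ℝ) :
    Pr d {ω : Om d | ∃ e : Sym2 (V d), ((ω (Sum.inl e) : unitInterval) : ℝ) = p} = 0 := by
  have h : {ω : Om d | ∃ e : Sym2 (V d), ((ω (Sum.inl e) : unitInterval) : ℝ) = p} =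
      ⋃ e : Sym2 (V d), {ω : Om d | ((ω (Sum.inl e) : unitInterval) : ℝ) = p} := by
    ext ω; simp
  rw [h]
  exact measure_iUnion_null fun e => Pr_label_eq (ι := Ix d) (Sum.inl e) p

/-- left continuity: `E O` is an event for every edge set `O`, monotone and finitary in `O` -/
theorem Pr_left_iSup {E : Set (Sym2 (V d)) → Set (Om d)} (hmono : ∀ O O', O ⊆ O' → E O ⊆ E O')
    (hfin : ∀ O, ∀ ω ∈ E O, ∃ S : Set (Sym2 (V d)), S ⊆ O ∧ S.Finite ∧ ω ∈ E S)
    {p : ℝ} {u : ℕ → ℝ} (hu : Monotone u) (h1 : ∀ n, u n < p) (h2 : Tendsto u atTop (𝓝 p)) :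
    Pr d {ω | ω ∈ E (opn p ω)} = ⨆ n, Pr d {ω | ω ∈ E (opn (u n) ω)} := by
  have hm : Monotone fun n => {ω : Om d | ω ∈ E (opn (u n) ω)} :=
    fun m n hmn ω hω => hmono _ _ (opn_mono (hu hmn) ω) hω
  rw [← hm.measure_iUnion]
  apply le_antisymm
  · have hsub : {ω : Om d | ω ∈ E (opn p ω)} ⊆ (⋃ n, {ω : Om d | ω ∈ E (opn (u n) ω)}) ∪
        {ω : Om d | ∃ e : Sym2 (V d), ((ω (Sum.inl e) : unitInterval) : ℝ) = p} := by
      intro ω hω
      by_cases hn : ∃ e : Sym2 (V d), ((ω (Sum.inl e) : unitInterval) : ℝ) = p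
      · exact Or.inr hn
      · left
        push Not at hn
        obtain ⟨S, hS, hSf, hωS⟩ := hfin _ ω hω
        have hev : ∀ᶠ n in atTop, ∀ e ∈ S, ((ω (Sum.inl e) : unitInterval) : ℝ) ≤ u n := by
          rw [Filter.eventually_all_finite hSf]
          intro e he
          have hlt : ((ω (Sum.inl e) : unitInterval) : ℝ) < p := lt_of_le_of_ne (hS he).2 (hn e)
          exact (h2.eventually (lt_mem_nhds hlt)).mono fun n hn => hn.le
        obtain ⟨n, hn'⟩ := hev.exists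
        refine Set.mem_iUnion.2 ⟨n, hmono S _ ?_ hωS⟩
        exact fun e he => ⟨(hS he).1, hn' e he⟩
    refine (measure_mono hsub).trans ((measure_union_le _ _).trans ?_)
    rw [null_label_eq, add_zero]
  · refine measure_mono (Set.iUnion_subset fun n ω hω => ?_)
    exact hmono _ _ (opn_mono (h1 n).le ω) hω

theorem exists_seq_left (p : ℝ) : ∃ u : ℕ → ℝ, StrictMono u ∧ (∀ n, u n < p) ∧
    Tendsto u atTop (𝓝 p) := exists_seq_strictMono_tendsto p

/-- a monotone function with `f p = ⨆ f (u n)` along every sequence `u n ↑ p` is left continuous -/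
theorem tendsto_left_of_iSup {f : ℝ → ℝ≥0∞} (hf : Monotone f) {p : ℝ}
    (h : ∀ u : ℕ → ℝ, Monotone u → (∀ n, u n < p) → Tendsto u atTop (𝓝 p) →
      f p = ⨆ n, f (u n)) : Tendsto f (𝓝[<] p) (𝓝 (f p)) := by
  obtain ⟨u, hu, h1, h2⟩ := exists_seq_left p
  have h3 := hf.tendsto_nhdsLT p
  have h4 : Tendsto (fun n => f (u n)) atTop (𝓝 (f p)) := by
    rw [h u hu.monotone h1 h2]
    exact tendsto_atTop_iSup fun m n hmn => hf (hu.monotone hmn)
  have h5 : Tendsto u atTop (𝓝[<] p) :=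
    tendsto_nhdsWithin_iff.2 ⟨h2, Filter.Eventually.of_forall h1⟩
  rw [tendsto_nhds_unique h4 (h3.comp h5)]
  exact h3

theorem rchT_mono_finitary (x : V d) (b : Bool) (h : ℝ) :
    (∀ O O' : Set (Sym2 (V d)), O ⊆ O' → {ω : Om d | RchT O x (ghost b h ω)} ⊆
      {ω | RchT O' x (ghost b h ω)}) ∧
    ∀ O : Set (Sym2 (V d)), ∀ ω ∈ {ω : Om d | RchT O x (ghost b h ω)},
      ∃ S : Set (Sym2 (V d)), S ⊆ O ∧ S.Finite ∧ ω ∈ {ω : Om d | RchT S x (ghost b h ω)} := by
  constructor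
  · rintro O O' hO ω ⟨t, ht, h1⟩
    exact ⟨t, ht, Rch.mono hO h1⟩
  · rintro O ω ⟨t, ht, h1⟩
    obtain ⟨S, hS, hSf, hr⟩ := Rch.exists_finite h1
    exact ⟨S, hS, hSf, t, ht, hr⟩

theorem Mg_left_iSup (h : ℝ) {p : ℝ} {u : ℕ → ℝ} (hu : Monotone u) (h1 : ∀ n, u n < p)
    (h2 : Tendsto u atTop (𝓝 p)) : Mg d p h = ⨆ n, Mg d (u n) h :=
  Pr_left_iSup (E := fun O => {ω : Om d | RchT O 0 (ghost false h ω)})
    (rchT_mono_finitary 0 false h).1 (rchT_mono_finitary 0 false h).2 hu h1 h2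

theorem tau_left_iSup (x : V d) {p : ℝ} {u : ℕ → ℝ} (hu : Monotone u) (h1 : ∀ n, u n < p)
    (h2 : Tendsto u atTop (𝓝 p)) : tau p x = ⨆ n, tau (u n) x :=
  Pr_left_iSup (E := fun O => {_ω : Om d | Rch O 0 x})
    (fun O O' hO ω hω => Rch.mono hO hω)
    (fun O ω hω => by
      obtain ⟨S, hS, hSf, hr⟩ := Rch.exists_finite (show Rch O 0 x from hω)
      exact ⟨S, hS, hSf, hr⟩) hu h1 h2

theorem Mg_mono_p {p q : ℝ} (hpq : p ≤ q) (h : ℝ) : Mg d p h ≤ Mg d q h :=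
  measure_mono fun ω ⟨t, ht, h1⟩ => ⟨t, ht, Rch.mono (opn_mono hpq ω) h1⟩

theorem ghost_mono (b : Bool) {h h' : ℝ} (hh : h ≤ h') (ω : Om d) :
    ghost b h ω ⊆ ghost b h' ω := by
  intro v hv
  have h1 : ((ω (Sum.inr (v, b)) : unitInterval) : ℝ) ≤ 1 - Real.exp (-h) := hv
  have h2 : Real.exp (-h') ≤ Real.exp (-h) := Real.exp_le_exp.2 (by linarith)
  show ((ω (Sum.inr (v, b)) : unitInterval) : ℝ) ≤ 1 - Real.exp (-h')
  linarith

theorem Mg_mono_h (p : ℝ) {h h' : ℝ} (hh : h ≤ h') : Mg d p h ≤ Mg d p h' :=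
  measure_mono fun ω ⟨t, ht, h1⟩ => ⟨t, ghost_mono false hh ω ht, h1⟩

theorem Mg_le_one' (p h : ℝ) : Mg d p h ≤ 1 := prob_le_one

theorem Mg_ne_top (p h : ℝ) : Mg d p h ≠ ⊤ := measure_ne_top _ _

theorem Mg_tendsto_left (p h : ℝ) : Tendsto (fun p' => Mg d p' h) (𝓝[<] p) (𝓝 (Mg d p h)) :=
  tendsto_left_of_iSup (f := fun p' => Mg d p' h) (fun _ _ hpq => Mg_mono_p hpq h)
    fun _ hu h1 h2 => Mg_left_iSup h hu h1 h2

theorem tau_tendsto_left (p : ℝ) (x : V d) : Tendsto (fun p' => tau p' x) (𝓝[<] p) (𝓝 (tau p x)) :=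
  tendsto_left_of_iSup (f := fun p' => tau p' x) (fun _ _ hpq => tau_mono hpq x)
    fun _ hu h1 h2 => tau_left_iSup x hu h1 h2

/-- `θ(p) ≤ M(p,h)` -/
theorem theta_le_Mg (p : ℝ) {h : ℝ} (hh : 0 < h) : theta d p ≤ Mg d p h := by
  have hm : MeasurableSet {ω : Om d | (Cl (opn p ω) (0 : V d)).Infinite} :=
    MVS.infinite ((opn_MES p).cl 0)
  rw [Mg_eq p hh, theta, ← lintegral_indicator_one hm]
  refine lintegral_mono fun ω => ?_
  by_cases hi : (Cl (opn p ω) (0 : V d)).Infinite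
  · rw [Set.indicator_of_mem (by exact hi), ex_inf h hi]; simp
  · rw [Set.indicator_of_notMem (by exact hi)]; exact zero_le

/-- `M(p,h) → θ(p)` as `h → 0` -/
theorem Mg_tendsto_theta (p : ℝ) : Tendsto (fun h => Mg d p h) (𝓝[>] 0) (𝓝 (theta d p)) := by
  have hm : MeasurableSet {ω : Om d | (Cl (opn p ω) (0 : V d)).Infinite} :=
    MVS.infinite ((opn_MES p).cl 0)
  have h1 : (fun h => Mg d p h) =ᶠ[𝓝[>] 0]
      fun h => ∫⁻ ω, (1 - ex h (Cl (opn p ω) (0 : V d))) ∂Pr d := by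
    filter_upwards [self_mem_nhdsWithin] with h hh
    exact Mg_eq p hh
  rw [tendsto_congr' h1, theta, ← lintegral_indicator_one hm]
  refine tendsto_lintegral_filter_of_dominated_convergence (fun _ => 1)
    (Filter.Eventually.of_forall fun h => measurable_const.sub (measurable_ex ((opn_MES p).cl 0)))
    (Filter.Eventually.of_forall fun h => Filter.Eventually.of_forall fun ω => tsub_le_self)
    (by rw [lintegral_const, measure_univ]; simp) (Filter.Eventually.of_forall fun ω => ?_)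
  by_cases hi : (Cl (opn p ω) (0 : V d)).Infinite
  · rw [Set.indicator_of_mem (by exact hi), Pi.one_apply]
    simp only [ex_inf _ hi, tsub_zero]
    exact tendsto_const_nhds
  · rw [Set.indicator_of_notMem (by exact hi)]
    rw [Set.not_infinite] at hi
    have h2 : Tendsto (fun h : ℝ => ex h (Cl (opn p ω) (0 : V d))) (𝓝[>] 0) (𝓝 1) := by
      simp only [ex_fin _ hi]
      have h3 : Continuous (fun h : ℝ => ENNReal.ofReal (Real.exp
          (-(h * ((Cl (opn p ω) (0 : V d)).ncard : ℝ))))) :=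
        ENNReal.continuous_ofReal.comp (by fun_prop)
      have h4 := (h3.tendsto 0).mono_left (nhdsWithin_le_nhds (s := Set.Ioi (0 : ℝ)))
      simpa using h4
    have h5 : Tendsto (fun h : ℝ => (1 : ℝ≥0∞) - ex h (Cl (opn p ω) (0 : V d))) (𝓝[>] 0)
        (𝓝 (1 - 1)) := ENNReal.Tendsto.sub tendsto_const_nhds h2 (Or.inl ENNReal.one_ne_top)
    simpa using h5

theorem Pr_mem_ghost (b : Bool) {h : ℝ} (hh : 0 ≤ h) (x : V d) :
    Pr d {ω | x ∈ ghost b h ω} = 1 - ENNReal.ofReal (Real.exp (-h)) := by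
  have h1 := Pr_ghost_fin (d := d) b hh {x}
  have h2 : {ω : Om d | x ∈ ghost b h ω} = {ω | ∀ v ∈ ({x} : Finset (V d)), v ∉ ghost b h ω}ᶜ := by
    ext ω; simp
  have hm : MeasurableSet {ω : Om d | ∀ v ∈ ({x} : Finset (V d)), v ∉ ghost b h ω} := by
    have : {ω : Om d | ∀ v ∈ ({x} : Finset (V d)), v ∉ ghost b h ω} =
        {ω | x ∈ ghost b h ω}ᶜ := by ext ω; simp
    rw [this]; exact (ghost_MVS b h x).compl
  rw [h2, prob_compl_eq_one_sub hm, h1]
  simp

theorem Pr_mem_ghost_le (b : Bool) {h : ℝ} (hh : 0 ≤ h) (x : V d) :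
    Pr d {ω | x ∈ ghost b h ω} ≤ ENNReal.ofReal h := by
  rw [Pr_mem_ghost b hh, ← ENNReal.ofReal_one, ← ENNReal.ofReal_sub _ (Real.exp_pos _).le]
  refine ENNReal.ofReal_le_ofReal ?_
  linarith [Real.add_one_le_exp (-h)]

theorem dep_mem_ghost (b : Bool) (h : ℝ) (x : V d) :
    DependsOn (fun ω : Om d => x ∈ ghost b h ω) {Sum.inr (x, b)} := by
  intro ω ω' h1
  have := h1 (Sum.inr (x, b)) rfl
  simp only [ghost, Set.mem_ofPred_eq, this]

/-- `M(p,h) ≤ h χ(p)` -/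
theorem Mg_le_chi (p : ℝ) {h : ℝ} (hh : 0 ≤ h) : Mg d p h ≤ ENNReal.ofReal h * chi d p := by
  have hsub : {ω : Om d | RchT (opn p ω) 0 (ghost false h ω)} ⊆
      ⋃ x : V d, ({ω | Rch (opn p ω) 0 x} ∩ {ω | x ∈ ghost false h ω}) := by
    rintro ω ⟨x, hx, h1⟩
    exact Set.mem_iUnion.2 ⟨x, h1, hx⟩
  calc Mg d p h ≤ ∑' x : V d, Pr d ({ω | Rch (opn p ω) 0 x} ∩ {ω | x ∈ ghost false h ω}) :=
        (measure_mono hsub).trans (measure_iUnion_le _)
    _ ≤ ∑' x : V d, ENNReal.ofReal h * tau p x := by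
        refine ENNReal.tsum_le_tsum fun x => ?_
        rw [Pr_inter_dep (S := (gI d false)ᶜ) (T := gI d false) disjoint_compl_left
          ((opn_MES p).rch 0 x) (ghost_MVS false h x) ?_ ((dep_mem_ghost false h x).mono ?_),
          mul_comm]
        · exact mul_le_mul' (Pr_mem_ghost_le false hh x) le_rfl
        · intro ω ω' hω
          have h2 := dep_Cl_opn_gI (d := d) p 0 false hω
          simp only at h2
          have h3 : x ∈ Cl (opn p ω) (0 : V d) ↔ x ∈ Cl (opn p ω') (0 : V d) := by rw [h2]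
          exact propext h3
        · intro i hi
          rw [Set.mem_singleton_iff] at hi
          exact ⟨x, hi⟩
    _ = ENNReal.ofReal h * chi d p := ENNReal.tsum_mul_left

end Pool.Agent.PB
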